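import Pool.Agent.Lib.MP_e039bb_gt.Pd.Law

/-! The fundamental class of an orientation. -/

namespace Pool.Agent.Lib.MP_e039bb_gt

open Finsupp stdSimplex Set Filter Topology

variable {X Y : Type} [TopologicalSpace X] [TopologicalSpace Y] {n : ℕ} {K A B : Set X}

theorem away_iff {z : Ch X n} : Away K z ↔ z ∈ Out K n :=
  ⟨fun h σ hσ => range_subset_iff.2 (h σ hσ), fun h _ hσ t => h hσ ⟨t, rfl⟩⟩

theorem null_iff {z : Ch X n} : Null K z ↔ z ∈ Br K n :=
  ⟨fun ⟨w, h⟩ => sub_add_cancel z (bd X n w) ▸ add_mem (Br_out (away_iff.1 h)) (Br_bd w),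
    fun h => by
      obtain ⟨o, ho, w, rfl⟩ := Br_ex h
      exact ⟨w, away_iff.2 ((add_sub_cancel_right o _).symm ▸ ho)⟩⟩

/-- There is a relative class of infinite order. -/
def Fr (K : Set X) (n : ℕ) : Prop := ∃ z ∈ Zr K n, ∀ k : ℤ, k • z ∈ Br K n → k = 0

theorem fr_inter (hA : IsClosed A) (hB : IsClosed B) (h1 : Van A n) (h2 : Van B n)
    (h3 : Fr (A ∪ B) n) : Fr (A ∩ B) (n + 1) := by
  obtain ⟨z, hz, h⟩ := h3
  obtain ⟨a, ha, v, e1⟩ := Br_ex (h1 z (Zr_mono subset_union_left hz))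
  obtain ⟨b, hb, w, e2⟩ := Br_ex (h2 z (Zr_mono subset_union_right hz))
  have e3 : bd X n (w - v) = a + -b := by
    rw [map_sub]
    linear_combination (norm := abel1) e1 - e2
  refine ⟨w - v, show _ ∈ Out _ n from e3 ▸ add_mem (Out_mono inter_subset_left ha)
    (neg_mem (Out_mono inter_subset_right hb)), fun k hk => h k ?_⟩
  obtain ⟨s, hs, t, e4⟩ := Br_ex hk
  have e5 := congrArg (bd X n) e4
  rw [map_smul, e3, map_add, bd_bd, add_zero, smul_add] at e5
  rw [e1, smul_add]
  exact add_mem (glue hA hB (Submodule.smul_mem _ k ha) (Submodule.smul_mem _ k (neg_mem hb)) hs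
    e5.symm) (Submodule.smul_mem _ k (Br_bd v))

theorem fr_slab (S : Finset (Fin 4)) : Fr {y : E | ∀ i ∈ S, y i = 0} S.card := by
  induction S using Finset.induction_on with
  | empty =>
    rw [Finset.card_empty]
    refine ⟨single (.const _ 0) 1, trivial, fun k hk => ?_⟩
    obtain ⟨o, ho, w, e⟩ := Br_ex hk
    have h1 := congrArg (one E) e
    have h2 : o = 0 := Out_univ (Out_mono (fun _ _ => by simp) ho)
    rwa [h2, zero_add (bd E 0 w), map_smul, one_single, smul_eq_mul, mul_one, ← LinearMap.comp_apply,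
      one_bd] at h1
  | insert i S hi ih =>
    set Q := {y : E | ∀ i ∈ S, y i = 0}
    have hQ : ∀ y, ∀ t : ℝ, y + t • Pi.single i (1 : ℝ) ∈ Q → y ∈ Q := fun y t hy j hj => by
      simpa [Pi.single_eq_of_ne (ne_of_mem_of_not_mem hj hi)] using hy j hj
    have hc : IsClosed Q := by
      simp only [Q, ofPred_forall]
      exact isClosed_iInter fun j => isClosed_iInter fun _ =>
        isClosed_eq (continuous_apply j) continuous_const
    have h1 := van_ray (K := Q ∩ {y | y i ≤ 0}) (Pi.single i 1) (fun y t ht hy =>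
      ⟨hQ y t hy.1, by
        have := hy.2
        simp only [mem_ofPred_eq, Pi.add_apply, Pi.smul_apply, Pi.single_eq_same] at this ⊢
        rw [smul_eq_mul] at this
        linarith⟩) (fun y => y i) (continuous_apply i) (by simp) fun y hy => hy.2
    have h2 := van_ray (K := Q ∩ {y | 0 ≤ y i}) (-Pi.single i 1) (fun y t ht hy =>
      ⟨hQ y (-t) (by simpa using hy.1), by
        have := hy.2
        simp only [mem_ofPred_eq, Pi.add_apply, Pi.smul_apply, Pi.neg_apply, Pi.single_eq_same]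
          at this ⊢
        rw [smul_eq_mul] at this
        linarith⟩) (fun y => -y i) (by fun_prop) (fun y t => by simp [add_comm])
      fun y hy => neg_le_neg hy.2
    have e1 : {y : E | ∀ j ∈ insert i S, y j = 0} = Q ∩ {y | y i ≤ 0} ∩ (Q ∩ {y | 0 ≤ y i}) := by
      ext y
      simp only [Finset.forall_mem_insert, mem_ofPred_eq, mem_inter_iff, Q, le_antisymm_iff (a := y i)]
      tauto
    have e2 : Q ∩ {y | y i ≤ 0} ∪ Q ∩ {y | 0 ≤ y i} = Q := by
      rw [← inter_union_distrib_left]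
      exact inter_eq_left.2 fun y _ => le_total (y i) 0
    rw [e1, Finset.card_insert_of_notMem hi]
    exact fr_inter (hc.inter (isClosed_le (continuous_apply i) continuous_const))
      (hc.inter (isClosed_le continuous_const (continuous_apply i))) (h1 _) (h2 _) (e2.symm ▸ ih)

theorem fr_push [T2Space Y] {f : C(X, Y)} (hf : IsOpenEmbedding f) (hK : IsCompact K)
    (h : Fr K (n + 1)) : Fr (f '' K) (n + 1) := by
  obtain ⟨z, hz, h⟩ := h
  refine ⟨push f _ z, Submodule.mem_comap.2 ((bd_push f z).symm ▸ push_Sm f (A := Kᶜ) (B := (f '' K)ᶜ)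
    (fun y hy ⟨u, hu, e⟩ => hy (hf.injective e ▸ hu)) hz), fun k hk => h k ?_⟩
  obtain ⟨o, ho, w, e⟩ := Br_ex hk
  obtain ⟨a, ha, b, hb, t, -, e1⟩ := split (s := w) hf.isOpen_range
    (hK.image f.continuous).isClosed.isOpen_compl (by
      rw [← compl_compl (range f), ← compl_inter]
      exact Out_mono (fun y hy => hy.1 (image_subset_range _ _ hy.2)) (Out_empty w))
    (Submodule.smul_mem _ k (push_Sm f (A := univ) (B := range f) (fun y _ => ⟨y, rfl⟩) (z := z)
      fun _ _ => subset_univ _)) (neg_mem ho) (by rw [e]; abel)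
  obtain ⟨a, rfl⟩ : (LinearMap.id : Ch Y (n + 2) →ₗ[ℤ] _) a ∈ LinearMap.range (push f (n + 2)) :=
    sup_map (fun σ hσ => by
      obtain ⟨τ, rfl⟩ := lift_sx hf.isEmbedding hσ
      exact ⟨_, push_single f τ⟩) ha
  have h1 : push f _ (k • z - bd X _ a) ∈ Out (f '' K) (n + 1) := by
    rw [map_sub, map_smul, e, e1, map_add, map_add, bd_bd, add_zero, ← bd_push]
    convert add_mem ho (Out_bd hb) using 1
    abel
  exact sub_add_cancel (k • z) (bd X _ a) ▸ add_mem (Br_out (push_refl hf.injective h1)) (Br_bd a)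

theorem fr_pt [T2Space X] (hX : Loc X) (x : X) : Fr {x} 4 := by
  obtain ⟨f, hf, rfl, -⟩ := hX x univ univ_mem
  rw [← image_singleton]
  refine fr_push hf isCompact_singleton ?_
  convert fr_slab Finset.univ using 1
  · ext y
    simp [funext_iff]
  · simp

variable [T2Space X] [CompactSpace X]

theorem Br_of_pt (hX : Loc X) (hK : IsClosed K) {z : Ch X 4}
    (h : ∀ x ∈ K, z ∈ Br {x} 4) : z ∈ Br K 4 := by
  refine cover (P := fun A => z ∈ Br A 4) hK (Br_out (Out_empty z)) (fun _ _ h => Br_mono h)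
    (fun A B hA hB _ _ h1 h2 => ?_) fun x hx => ?_
  · obtain ⟨a, ha, v, e1⟩ := Br_ex h1
    obtain ⟨b, hb, w, e2⟩ := Br_ex h2
    have e3 : bd X 4 (w - v) = a + -b := by
      rw [map_sub]
      linear_combination (norm := abel1) e1 - e2
    obtain ⟨s, hs, t, e4⟩ := Br_ex (van_high hX (hA.inter hB) le_rfl (w - v)
      (show _ ∈ Out _ 4 from e3 ▸ add_mem (Out_mono inter_subset_left ha)
        (neg_mem (Out_mono inter_subset_right hb))))
    rw [e4, map_add, bd_bd, add_zero] at e3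
    exact e1 ▸ add_mem (glue hA hB ha (neg_mem hb) hs e3) (Br_bd v)
  · obtain ⟨o, ho, w, e⟩ := Br_ex (h x hx)
    obtain ⟨U, h1, h2, h3⟩ := taut ho
    exact ⟨U, h1.mem_nhds (h2 rfl), e ▸ add_mem (Br_out h3) (Br_bd w)⟩

theorem Orientable.dual (h : Orientable X) (hX : Loc X) : ∃ c : Ch X 4, Dual c := by
  obtain ⟨μ, h1, h2⟩ := h
  obtain ⟨c, hc, h3⟩ := cover (P := fun A => ∃ z ∈ Zr A 4, ∀ y ∈ A, z - μ y ∈ Br {y} 4)
    isClosed_univ ⟨0, zero_mem _, fun _ h => h.elim⟩
    (fun A B h => Exists.imp fun z hz => ⟨Zr_mono h hz.1, fun y hy => hz.2 y (h hy)⟩) (by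
      rintro A B hA hB - - ⟨u, a1, a2⟩ ⟨v, b1, b2⟩
      obtain ⟨o, ho, w, e⟩ := Br_ex (Br_of_pt hX (hA.inter hB) (z := u - v) fun y hy =>
          sub_sub_sub_cancel_right u v (μ y) ▸ sub_mem (a2 y hy.1) (b2 y hy.2))
      obtain ⟨a, ha, b, hb, t, -, e1⟩ := split (s := o) hA.isOpen_compl hB.isOpen_compl
        (by rwa [← compl_inter]) a1 (neg_mem b1) (by
          rw [eq_sub_of_add_eq e.symm, map_sub, bd_bd, sub_zero, map_sub, sub_eq_add_neg])
      have e2 : u - a = v + (b + bd X 4 (t + w)) := by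
        rw [map_add]
        linear_combination (norm := abel1) e + e1
      refine ⟨u - a, Zr_union (sub_mem a1 (Zr_out ha))
        (e2 ▸ add_mem b1 (add_mem (Zr_out hb) (Zr_bd _))), fun y hy => hy.elim (fun hy => ?_)
          fun hy => ?_⟩
      · rw [sub_right_comm]
        exact sub_mem (a2 y hy) (Br_out (Out_mono (singleton_subset_iff.2 hy) ha))
      · rw [e2, add_sub_right_comm]
        exact add_mem (b2 y hy) (add_mem (Br_out (Out_mono (singleton_subset_iff.2 hy) hb))
          (Br_bd _))) fun x _ => by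
      obtain ⟨U, a, z, b, d⟩ := h2 x
      exact ⟨U, a, z, away_iff.1 b, fun y hy => null_iff.1 (d y hy)⟩
  have h4 : ∀ x, ∀ z ∈ Zr {x} 4, ∃ k : ℤ, z - k • c ∈ Br {x} 4 := fun x z hz => by
    obtain ⟨k, hk⟩ := (h1 x).2 z (away_iff.2 hz)
    refine ⟨k, ?_⟩
    convert sub_mem (null_iff.1 hk) (Submodule.smul_mem _ k (h3 x trivial)) using 1
    rw [smul_sub, sub_sub_sub_cancel_right]
  refine ⟨c, Pool.Agent.Lib.MP_e039bb_gt.dual (Out_univ hc) hX (fun x k hk => ?_) h4⟩
  obtain ⟨z, hz, h5⟩ := fr_pt hX x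
  obtain ⟨l, hl⟩ := h4 x z hz
  refine h5 k ?_
  convert add_mem (Submodule.smul_mem _ k hl) (Submodule.smul_mem _ l hk) using 1
  rw [smul_sub, smul_comm l k, sub_add_cancel]

omit [T2Space X] [CompactSpace X] in
theorem path_connected [ConnectedSpace X] [ChartedSpace (EuclideanSpace ℝ (Fin 4)) X] :
    PathConnectedSpace X :=
  haveI := ChartedSpace.locallyPathConnectedSpace (EuclideanSpace ℝ (Fin 4)) X
  PathConnectedSpace.of_locallyPathConnectedSpace

end Pool.Agent.Lib.MP_e039bb_gt
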