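import Pool.Agent.Lib.MP_e039bb_gt.Pd.Chart

/-! The cap product and cochains that vanish near a closed set. -/

namespace Pool.Agent.Lib.MP_e039bb_gt

open Finsupp stdSimplex Set Filter Topology

/-- The singular cochains. -/
abbrev Coc (X : Type) [TopologicalSpace X] (p : ℕ) : Type := Ch X p →ₗ[ℤ] ℤ

variable {X : Type} [TopologicalSpace X] {n p j : ℕ}

/-- A face, with the vertices given by natural numbers. -/
noncomputable def fc (σ : Sx X n) (m : ℕ) (g : ℕ → ℕ) : Sx X m :=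
  face (fun i : Fin (m + 1) => ⟨min (g i) n, Nat.lt_succ_of_le (min_le_right _ _)⟩) σ

/-- Skip `i`. -/
def sk (i k : ℕ) : ℕ := if k < i then k else k + 1

theorem fc_congr (σ : Sx X n) {m : ℕ} {g g' : ℕ → ℕ} (h : ∀ k ≤ m, g k = g' k) :
    fc σ m g = fc σ m g' := by
  simp only [fc, fun i : Fin (m + 1) => h i (Nat.le_of_lt_succ i.2)]

theorem fc_fc (σ : Sx X n) {m l : ℕ} (g : ℕ → ℕ) {h : ℕ → ℕ} (hh : ∀ k ≤ l, h k ≤ m) :
    fc (fc σ m g) l h = fc σ l fun k => g (h k) := by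
  rw [fc, fc, face_face, fc]
  congr 1
  funext i
  simp only [Function.comp, min_eq_left (hh i (Nat.le_of_lt_succ i.2))]

theorem fc_id (σ : Sx X n) : fc σ n (fun k => k) = σ := by
  simp only [fc, fun i : Fin (n + 1) => min_eq_left (Nat.le_of_lt_succ i.2)]
  exact ContinuousMap.ext fun t => congrArg σ (map_id_apply t)

theorem bd_fc (σ : Sx X n) (m : ℕ) (g : ℕ → ℕ) : bd X m (single (fc σ (m + 1) g) 1) =
    ∑ i ∈ Finset.range (m + 2), (-1 : ℤ) ^ i • single (fc σ m fun k => g (sk i k)) 1 := by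
  rw [bd_single, ← Fin.sum_univ_eq_sum_range
    fun i => (-1 : ℤ) ^ i • single (fc σ m fun k => g (sk i k)) (1 : ℤ)]
  refine Finset.sum_congr rfl fun i _ => ?_
  rw [fc, face_face, fc]
  congr 3
  funext k
  have h : (i.succAbove k : ℕ) = sk i k := by
    rw [sk, Fin.succAbove]
    split_ifs <;> first | rfl | contradiction
  simp only [Function.comp, h]

/-- The cap product. -/
noncomputable def cp (φ : Coc X p) (j n : ℕ) : Ch X n →ₗ[ℤ] Ch X j :=
  linearCombination ℤ fun σ => φ (single (fc σ p fun k => k) 1) • single (fc σ j (p + ·)) 1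

theorem cp_single (φ : Coc X p) (σ : Sx X n) : cp φ j n (single σ 1) =
    φ (single (fc σ p fun k => k) 1) • single (fc σ j (p + ·)) 1 := by
  rw [cp, linearCombination_single, one_smul]

theorem cp_add (φ ψ : Coc X p) (z : Ch X n) : cp (φ + ψ) j n z = cp φ j n z + cp ψ j n z :=
  lin_ext (g := cp φ j n + cp ψ j n) (fun σ => by
    simp only [LinearMap.add_apply, cp_single, add_smul]) z

theorem cp_smul (a : ℤ) (φ : Coc X p) (z : Ch X n) : cp (a • φ) j n z = a • cp φ j n z :=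
  lin_ext (g := a • cp φ j n) (fun σ => by
    simp only [LinearMap.smul_apply, cp_single, smul_assoc]) z

theorem cp_zero (z : Ch X n) : cp (0 : Coc X p) j n z = 0 := by
  rw [← zero_smul ℤ (0 : Coc X p), cp_smul, zero_smul]

theorem cp_sub (φ ψ : Coc X p) (z : Ch X n) : cp (φ - ψ) j n z = cp φ j n z - cp ψ j n z := by
  rw [eq_sub_iff_add_eq, ← cp_add, sub_add_cancel]

theorem bd_cp (h : p + j = n) (φ : Coc X p) (z : Ch X (n + 1)) :
    bd X j (cp φ (j + 1) (n + 1) z) =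
      (-1 : ℤ) ^ p • (cp φ j n (bd X n z) - cp (φ ∘ₗ bd X p) j (n + 1) z) := by
  refine lin_ext (f := bd X j ∘ₗ cp φ _ _)
    (g := (-1 : ℤ) ^ p • (cp φ j n ∘ₗ bd X n - cp (φ ∘ₗ bd X p) j (n + 1))) (fun σ => ?_) z
  have h1 := bd_fc σ n fun k => k
  rw [fc_id] at h1
  have h2 : ∀ i, fc (fc σ n fun k => sk i k) p (fun k => k) = fc σ p fun k => sk i k :=
    fun i => fc_fc σ _ fun k hk => by omega
  have h3 : ∀ i, fc (fc σ n fun k => sk i k) j (p + ·) = fc σ j fun k => sk i (p + k) :=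
    fun i => fc_fc σ _ fun k hk => by omega
  have ha : ∀ i ∈ Finset.range (p + 1), (fc σ j fun k => sk i (p + k)) = fc σ j (p + 1 + ·) :=
    fun i hi => fc_congr σ fun k _ => by
      rw [sk, if_neg (by have := Finset.mem_range.1 hi; omega)]
      omega
  have hb : ∀ x, (fc σ p fun k => sk (p + 1 + x) k) = fc σ p fun k => k :=
    fun x => fc_congr σ fun k _ => by rw [sk, if_pos (by omega)]
  have hc : ∀ x, (fc σ j fun k => sk (p + 1 + x) (p + k)) = fc σ j fun k => p + sk (x + 1) k :=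
    fun x => fc_congr σ fun k _ => by
      rw [sk, sk]
      split_ifs <;> omega
  have he : (fc σ j fun k => p + sk 0 k) = fc σ j (p + 1 + ·) := fc_congr σ fun k _ => by
    rw [sk, if_neg (by omega)]
    omega
  have hs : ∀ x, (-1 : ℤ) ^ p * (-1) ^ (p + 1 + x) = (-1) ^ (x + 1) := fun x => by
    rw [← pow_add, (by ring : p + (p + 1 + x) = 2 * p + (x + 1)), pow_add, pow_mul]
    simp
  simp only [LinearMap.comp_apply, LinearMap.smul_apply, LinearMap.sub_apply, cp_single, h1,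
    map_smul, map_sum, bd_fc, h2, h3]
  have hd : (fc σ p fun k => sk (p + 1) k) = fc σ p fun k => k := hb 0
  have h4 : ∑ i ∈ Finset.range (p + 1), (-1 : ℤ) ^ i • φ (single (fc σ p fun k => sk i k) 1) •
      single (fc σ j fun k => sk i (p + k)) (1 : ℤ) = (∑ i ∈ Finset.range (p + 1),
      (-1 : ℤ) ^ i • φ (single (fc σ p fun k => sk i k) 1)) • single (fc σ j (p + 1 + ·)) 1 := by
    rw [Finset.sum_smul]
    exact Finset.sum_congr rfl fun i hi => by rw [ha i hi, smul_assoc]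
  rw [(by omega : n + 2 = p + 1 + (j + 1)), Finset.sum_range_add _ (p + 1),
    Finset.sum_range_succ _ (p + 1), Finset.sum_range_succ' _ (j + 1), h4, he, hd, add_smul,
    add_sub_add_left_eq_sub, smul_sub, smul_add, Finset.smul_sum, Finset.smul_sum, smul_assoc,
    smul_smul ((-1 : ℤ) ^ p), show (-1 : ℤ) ^ p * (-1) ^ (p + 1) = _ from hs 0]
  simp only [hb, hc, smul_smul ((-1 : ℤ) ^ p), hs, smul_comm (φ _) ((-1 : ℤ) ^ _)]
  simp

theorem cp_cap (φ : Coc X 2) (z : Ch X 4) : cp φ 2 4 z = cap (fun σ => φ (single σ 1)) z := by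
  refine lin_ext (fun σ => ?_) z
  have h1 : fc σ 2 (fun k => k) = face ![0, 1, 2] σ := congrArg (face · σ) (by decide)
  have h2 : fc σ 2 (2 + ·) = face ![2, 3, 4] σ := congrArg (face · σ) (by decide)
  rw [cp_single, cap, linearCombination_single, one_smul, smul_single, smul_eq_mul, mul_one, h1, h2]

/-- The cochain that takes the value 1 on every point. -/
noncomputable def one (X : Type) [TopologicalSpace X] : Coc X 0 := linearCombination ℤ fun _ => 1

theorem one_single (σ : Sx X 0) : one X (single σ 1) = 1 := by simp [one]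

theorem one_bd : one X ∘ₗ bd X 0 = 0 := LinearMap.ext (lin_ext fun σ => by
  simp [bd_single, one])

theorem cp_one (z : Ch X n) : cp (one X) n n z = z := lin_ext (g := .id) (fun σ => by
  simp only [cp_single, one_single, one_smul, zero_add, fc_id, LinearMap.id_apply]) z

/-- The cochain vanishes on the simplices in `U`. -/
def Kl (φ : Coc X p) (U : Set X) : Prop := ∀ σ : Sx X p, range σ ⊆ U → φ (single σ 1) = 0

theorem Kl.ch {φ : Coc X p} {U : Set X} (h : Kl φ U) {z : Ch X p} (hz : z ∈ Sm (· ⊆ U) p) :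
    φ z = 0 := sup_map (N := ⊥) h hz

/-- The cochains that vanish near the points of `K`. -/
def Nb (K : Set X) (p : ℕ) : Submodule ℤ (Coc X p) where
  carrier := {φ | ∀ x ∈ K, ∃ U, IsOpen U ∧ x ∈ U ∧ Kl φ U}
  zero_mem' _ _ := ⟨univ, isOpen_univ, trivial, fun _ _ => rfl⟩
  add_mem' {φ ψ} h1 h2 x hx := by
    obtain ⟨U, a1, a2, a3⟩ := h1 x hx
    obtain ⟨V, b1, b2, b3⟩ := h2 x hx
    exact ⟨U ∩ V, a1.inter b1, ⟨a2, b2⟩, fun σ h => by
      rw [LinearMap.add_apply, a3 σ (h.trans inter_subset_left),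
        b3 σ (h.trans inter_subset_right), add_zero]⟩
  smul_mem' a φ h x hx := (h x hx).imp fun U h => ⟨h.1, h.2.1, fun σ h1 => by
    rw [LinearMap.smul_apply, h.2.2 σ h1, smul_zero]⟩

variable {K A B : Set X} {φ : Coc X p}

theorem Nb_mono (h : A ⊆ B) (h1 : φ ∈ Nb B p) : φ ∈ Nb A p := fun x hx => h1 x (h hx)

theorem Nb_union (h1 : φ ∈ Nb A p) (h2 : φ ∈ Nb B p) : φ ∈ Nb (A ∪ B) p :=
  fun x hx => hx.elim (h1 x) (h2 x)

theorem Nb_bd (h : φ ∈ Nb K p) : φ ∘ₗ bd X p ∈ Nb K (p + 1) := fun x hx =>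
  (h x hx).imp fun U h => ⟨h.1, h.2.1, fun _ h1 => h.2.2.ch ((dn_sub U).bd (single_Sm h1))⟩

theorem Nb_nhds {x : X} (h : φ ∈ Nb {x} p) : ∃ W ∈ 𝓝 x, φ ∈ Nb W p := by
  obtain ⟨U, h1, h2, h3⟩ := h x rfl
  exact ⟨U, h1.mem_nhds h2, fun y hy => ⟨U, h1, hy, h3⟩⟩

theorem Nb_inter [NormalSpace X] (hA : IsClosed A) (hB : IsClosed B) (h : φ ∈ Nb (A ∩ B) p) :
    ∃ α ∈ Nb A p, ∃ β ∈ Nb B p, φ = α + β := by
  classical
  let W := ⋃₀ {U | IsOpen U ∧ Kl φ U}
  have hW : IsOpen W := isOpen_sUnion fun U hU => hU.1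
  obtain ⟨U, V, h1, h2, h3, h4, h5⟩ := normal_separation (hA.sdiff hW) (hB.sdiff hW)
    (disjoint_left.2 fun x a b => by
      obtain ⟨U, h1, h2, h3⟩ := h x ⟨a.1, b.1⟩
      exact a.2 ⟨U, ⟨h1, h3⟩, h2⟩)
  let β : Coc X p := linearCombination ℤ fun σ => if range σ ⊆ U then φ (single σ 1) else 0
  have hβ : ∀ σ, β (single σ 1) = if range σ ⊆ U then φ (single σ 1) else 0 := fun σ => by
    rw [linearCombination_single, one_smul]
  refine ⟨φ - β, fun x hx => ?_, β, fun x hx => ?_, (sub_add_cancel _ _).symm⟩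
  · by_cases a : x ∈ W
    · obtain ⟨O, b1, b2⟩ := a
      exact ⟨O, b1.1, b2, fun σ hσ => by simp [hβ, b1.2 σ hσ]⟩
    · exact ⟨U, h1, h3 ⟨hx, a⟩, fun σ hσ => by simp [hβ, hσ]⟩
  · by_cases a : x ∈ W
    · obtain ⟨O, b1, b2⟩ := a
      exact ⟨O, b1.1, b2, fun σ hσ => by simp [hβ, b1.2 σ hσ]⟩
    · exact ⟨V, h2, h4 ⟨hx, a⟩, fun σ hσ => by
        rw [hβ, if_neg fun b => disjoint_left.1 h5 (b ⟨barycenter, rfl⟩) (hσ ⟨_, rfl⟩)]⟩

theorem Nb_small (hK : IsClosed K) (h : φ ∈ Nb K p) : ∃ 𝒲 : Set (Set X),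
    (∀ n (z : Ch X n), ∀ᶠ m in atTop, (sds X n ^ m) z ∈ Sm (In 𝒲) n) ∧
    (∀ j n, ∀ z ∈ Sm (In 𝒲) n, cp φ j n z ∈ Out K j) ∧ ∀ W ∈ 𝒲, W = Kᶜ ∨ Kl φ W := by
  refine ⟨{U | IsOpen U ∧ (U = Kᶜ ∨ Kl φ U)}, fun n z => small (fun W h => h.1) ?_,
    fun j n z hz => sup_map (fun σ hσ => ?_) hz, fun W h => h.2⟩
  · rintro σ - x -
    by_cases hx : x ∈ K
    · obtain ⟨U, h1, h2, h3⟩ := h x hx
      exact ⟨U, ⟨h1, .inr h3⟩, h2⟩
    · exact ⟨Kᶜ, ⟨hK.isOpen_compl, .inl rfl⟩, hx⟩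
  · obtain ⟨W, ⟨-, rfl | h1⟩, h2⟩ : In _ (range σ) := hσ
    · rw [cp_single]
      exact Submodule.smul_mem _ _ (single_Sm ((range_comp_sub σ _).trans h2))
    · rw [cp_single, h1 (fc σ p _) ((range_comp_sub σ _).trans h2), zero_smul]
      exact zero_mem _

theorem loc_zero (hX : Loc X) {x : X} {φ : Coc X 0} (h : φ ∘ₗ bd X 0 ∈ Nb {x} 1) :
    ∃ k : ℤ, φ - k • one X ∈ Nb {x} 0 := by
  obtain ⟨U, h1, h2, h3⟩ := h x rfl
  obtain ⟨f, hf, rfl, h4⟩ := hX x U (h1.mem_nhds h2)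
  refine ⟨φ (single (.const _ (f 0)) 1), ?_⟩
  rintro _ rfl
  refine ⟨range f, hf.isOpen_range, ⟨0, rfl⟩, fun σ hσ => ?_⟩
  obtain ⟨τ, rfl⟩ := lift_sx hf.isEmbedding hσ
  have h5 := h3.ch (push_Sm f (A := univ) (fun y _ => h4 ⟨y, rfl⟩)
    (z := prism rad 0 (single τ 1)) fun _ _ => subset_univ _)
  rw [LinearMap.comp_apply, bd_push, bd_prism0, rad_one, rad_zero, push_id, push_single, map_sub,
    push_single, push_single, map_sub] at h5
  rwa [LinearMap.sub_apply, LinearMap.smul_apply, one_single, smul_eq_mul, mul_one]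

theorem loc_succ (hX : Loc X) {x : X} {φ : Coc X (p + 1)}
    (h : φ ∘ₗ bd X (p + 1) ∈ Nb {x} (p + 2)) : ∃ ψ : Coc X p, φ - ψ ∘ₗ bd X p ∈ Nb {x} (p + 1) := by
  classical
  obtain ⟨U, h1, h2, h3⟩ := h x rfl
  obtain ⟨f, hf, rfl, h4⟩ := hX x U (h1.mem_nhds h2)
  obtain ⟨T, hT⟩ := contr
  let ψ : Coc X p := linearCombination ℤ (Function.extend (fun τ : Sx E p => f.comp τ)
    (fun τ => φ (push f _ (T p (single τ 1)))) 0)
  have h5 : ∀ y, ψ (push f p y) = φ (push f _ (T p y)) :=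
    lin_ext (f := ψ ∘ₗ push f p) (g := φ ∘ₗ push f _ ∘ₗ T p) fun τ => by
      rw [LinearMap.comp_apply, push_single, linearCombination_single, one_smul,
        (comp_inj hf.injective).extend_apply]
      rfl
  refine ⟨ψ, ?_⟩
  rintro _ rfl
  refine ⟨range f, hf.isOpen_range, ⟨0, rfl⟩, fun σ hσ => ?_⟩
  obtain ⟨τ, rfl⟩ := lift_sx hf.isEmbedding hσ
  have h6 := h3.ch (push_Sm f (A := univ) (fun y _ => h4 ⟨y, rfl⟩)
    (z := T (p + 1) (single τ 1)) fun _ _ => subset_univ _)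
  rw [LinearMap.comp_apply, bd_push, eq_sub_of_add_eq (hT p _).symm, map_sub, map_sub] at h6
  rwa [LinearMap.sub_apply, LinearMap.comp_apply, ← push_single, bd_push, h5]

end Pool.Agent.Lib.MP_e039bb_gt
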