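import Pool.Agent.Lib.MP_e039bb_gt.Pd.Rel

/-! Relative homology of manifolds and local cochains. -/

namespace Pool.Agent.Lib.MP_e039bb_gt

open Finsupp stdSimplex Set Filter Topology

variable {X Y : Type} [TopologicalSpace X] [TopologicalSpace Y] {n : ℕ}

variable (X) in
/-- Every point has small neighbourhoods homeomorphic to the model space. -/
def Loc : Prop := ∀ x : X, ∀ U ∈ 𝓝 x, ∃ f : C(E, X), IsOpenEmbedding f ∧ f 0 = x ∧ range f ⊆ U

theorem loc_chart [ChartedSpace (EuclideanSpace ℝ (Fin 4)) X] : Loc X := fun x U hU => by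
  let e := chartAt (EuclideanSpace ℝ (Fin 4)) x
  have hx : x ∈ e.source := mem_chart_source _ x
  have h1 : e.target ∩ e.symm ⁻¹' U ∈ 𝓝 (e x) := inter_mem (e.open_target.mem_nhds
    (e.map_source hx)) (e.continuousAt_symm (e.map_source hx) ((e.left_inv hx).symm ▸ hU))
  obtain ⟨r, r0, hr⟩ := Metric.mem_nhds_iff.1 h1
  let g : OpenPartialHomeomorph (EuclideanSpace ℝ (Fin 4)) (EuclideanSpace ℝ (Fin 4)) :=
    OpenPartialHomeomorph.univBall (e x) r
  have h2 : ∀ y, g y ∈ e.target ∩ e.symm ⁻¹' U := fun y => hr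
    (OpenPartialHomeomorph.univBall_target (E := EuclideanSpace ℝ (Fin 4)) (e x) r0 ▸
      g.map_source (by simp [g]))
  have h3 := ((g.trans e.symm).isOpenEmbedding (eq_univ_of_forall fun y =>
    ⟨by simp [g], (h2 y).1⟩)).comp
    (EuclideanSpace.equiv (Fin 4) ℝ).symm.toHomeomorph.isOpenEmbedding
  refine ⟨⟨_, h3.continuous⟩, h3, ?_, ?_⟩
  · change e.symm (g ((EuclideanSpace.equiv (Fin 4) ℝ).symm 0)) = x
    rw [map_zero, OpenPartialHomeomorph.univBall_apply_zero, e.left_inv hx]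
  · rintro _ ⟨y, rfl⟩
    exact (h2 _).2

theorem lift_sx {f : C(X, Y)} (hf : IsEmbedding f) {σ : Sx Y n} (h : range σ ⊆ range f) :
    ∃ τ : Sx X n, f.comp τ = σ := by
  choose g hg using fun t => h ⟨t, rfl⟩
  exact ⟨⟨g, hf.isInducing.continuous_iff.2 ((funext hg : f ∘ g = σ) ▸ σ.continuous)⟩,
    ContinuousMap.ext hg⟩

theorem comp_inj {f : C(X, Y)} (hf : Function.Injective f) :
    Function.Injective fun σ : Sx X n => f.comp σ :=
  fun _ _ h => ContinuousMap.ext fun t => hf (ContinuousMap.congr_fun h t)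

theorem push_refl {f : C(X, Y)} (hf : Function.Injective f) {K : Set X} {y : Ch X n}
    (h : push f n y ∈ Out (f '' K) n) : y ∈ Out K n := fun τ hτ => by
  have h1 : f.comp τ ∈ (push f n y).support :=
    mem_support_iff.2 ((mapDomain_apply (comp_inj hf) y τ).symm ▸ mem_support_iff.1 hτ)
  rintro _ ⟨t, rfl⟩ ht
  exact h h1 ⟨t, rfl⟩ ⟨_, ht, rfl⟩

theorem van_push [T2Space Y] {f : C(X, Y)} (hf : IsOpenEmbedding f) {K : Set X}
    (hK : IsCompact K) (h : Van K (n + 1)) : Van (f '' K) (n + 1) := fun z hz => by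
  obtain ⟨m, hm⟩ := (small (𝒲 := {range f, (f '' K)ᶜ}) (z := z) (by
    rintro _ (rfl | rfl)
    exacts [hf.isOpen_range, (hK.image f.continuous).isClosed.isOpen_compl]) (by
    rw [sUnion_pair, ← compl_compl (range f), ← compl_inter]
    exact Out_mono (fun y hy => hy.1 (image_subset_range _ _ hy.2)) (Out_empty z))).exists
  obtain ⟨a, ha, b, hb, e⟩ := In_pair hm
  obtain ⟨a, rfl⟩ : (LinearMap.id : Ch Y (n + 1) →ₗ[ℤ] _) a ∈ LinearMap.range (push f (n + 1)) :=
    sup_map (fun σ hσ => by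
      obtain ⟨τ, rfl⟩ := lift_sx hf.isEmbedding hσ
      exact ⟨_, push_single f τ⟩) ha
  have h1 : push f n (bd X n a) ∈ Out (f '' K) n := by
    rw [← bd_push, eq_sub_of_add_eq e.symm, map_sub, bd_pow]
    exact sub_mem ((dn_sub _).pow hz m) (Out_bd hb)
  obtain ⟨o, ho, w, e1⟩ := Br_ex (h a (push_refl hf.injective h1))
  have h2 := sub_pow hz m
  rw [e, e1, map_add, ← bd_push] at h2
  have h3 := add_mem h2 (add_mem (add_mem (Br_out (push_Sm f (A := Kᶜ) (B := (f '' K)ᶜ)
    (fun y hy ⟨u, hu, e⟩ => hy (hf.injective e ▸ hu)) ho)) (Br_bd (push f _ w))) (Br_out hb))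
  rwa [sub_add_cancel] at h3

variable [T2Space X] [CompactSpace X]

theorem cover {P : Set X → Prop} {K : Set X} (hK : IsClosed K) (h0 : P ∅)
    (mono : ∀ A B, A ⊆ B → P B → P A)
    (un : ∀ A B, IsClosed A → IsClosed B → A ⊆ K → B ⊆ K → P A → P B → P (A ∪ B))
    (loc : ∀ x ∈ K, ∃ W ∈ 𝓝 x, P W) : P K := by
  refine mono _ _ (subset_inter subset_rfl subset_closure)
    (hK.isCompact.induction_on (p := fun S => P (K ∩ closure S)) (by simpa using h0)
      (fun s t h => mono _ _ (inter_subset_inter_right _ (closure_mono h))) (fun s t hs ht => ?_)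
      fun x hx => ?_)
  · rw [closure_union, inter_union_distrib_left]
    exact un _ _ (hK.inter isClosed_closure) (hK.inter isClosed_closure) inter_subset_left
      inter_subset_left hs ht
  · obtain ⟨W, h1, h2⟩ := loc x hx
    obtain ⟨V, h3, h4, h5⟩ := exists_mem_nhds_isClosed_subset h1
    exact ⟨V, mem_nhdsWithin_of_mem_nhds h3, mono _ _
      (inter_subset_right.trans (h4.closure_subset.trans h5)) h2⟩

theorem van_high (hX : Loc X) {K : Set X} (hK : IsClosed K) (hn : 4 ≤ n) : Van K (n + 1) := by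
  refine cover (P := fun A => ∀ B ⊆ A, IsClosed B → ∀ n, 4 ≤ n → Van B (n + 1)) isClosed_univ
    (fun B hB _ n _ z _ => Br_out (Out_mono hB (Out_empty z)))
    (fun A B h hB C hC => hB C (hC.trans h)) (fun A B hA hB _ _ h1 h2 C hC h3 n hn => ?_)
    (fun x _ => ?_) K (subset_univ K) hK n hn
  · rw [← inter_eq_left.2 hC, inter_union_distrib_left]
    exact van_union (h3.inter hA) (h3.inter hB) (h1 _ inter_subset_right (h3.inter hA) n hn)
      (h2 _ inter_subset_right (h3.inter hB) n hn)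
      (h1 _ (inter_subset_left.trans inter_subset_right) ((h3.inter hA).inter (h3.inter hB)) _
        (by omega))
  · obtain ⟨f, hf, rfl, -⟩ := hX x univ univ_mem
    refine ⟨range f, hf.isOpen_range.mem_nhds ⟨0, rfl⟩, fun B hB h1 n hn => ?_⟩
    have h2 := hf.isInducing.isCompact_preimage' h1.isCompact hB
    rw [← image_preimage_eq_of_subset hB]
    exact van_push hf h2 (van_cpt h2 hn)

omit [CompactSpace X] in
theorem van_pt (hX : Loc X) (x : X) (hn : n ≠ 3) : Van {x} (n + 1) := by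
  obtain ⟨f, hf, rfl, -⟩ := hX x univ univ_mem
  rw [← image_singleton]
  exact van_push hf isCompact_singleton (Icc_self (0 : E) ▸ van_box 0 0 (by omega))

end Pool.Agent.Lib.MP_e039bb_gt
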