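import Mathlib

/-! Formal chains of vertex tuples: cones, subdivision and chain homotopies. -/

namespace Pool.Agent.Lib.MP_e039bb_gt

open Finsupp

/-- Formal sums of `n`-tuples. -/
abbrev L (P : Type) (n : ℕ) : Type := (Fin n → P) →₀ ℤ

variable {P Q P' Q' : Type}

/-- The boundary. -/
noncomputable def dl (P : Type) (n : ℕ) : L P (n + 1) →ₗ[ℤ] L P n :=
  linearCombination ℤ fun v => ∑ i : Fin (n + 1), single (v ∘ i.succAbove) ((-1) ^ (i : ℕ))

/-- The cone. -/
noncomputable def cn (b : P) (n : ℕ) : L P n →ₗ[ℤ] L P (n + 1) :=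
  lmapDomain ℤ ℤ fun v => Matrix.vecCons b v

/-- The image under a map of the vertices. -/
noncomputable def mp (g : P → Q) (n : ℕ) : L P n →ₗ[ℤ] L Q n := lmapDomain ℤ ℤ fun v => g ∘ v

theorem lin_ext {α M : Type} [AddCommGroup M] {f g : (α →₀ ℤ) →ₗ[ℤ] M}
    (h : ∀ a, f (single a 1) = g (single a 1)) (x : α →₀ ℤ) : f x = g x :=
  LinearMap.congr_fun (lhom_ext' fun a => LinearMap.ext_ring (h a)) x

theorem dl_single {n : ℕ} (v : Fin (n + 1) → P) : dl P n (single v 1) =
    ∑ i : Fin (n + 1), ((-1 : ℤ) ^ (i : ℕ)) • single (v ∘ i.succAbove) 1 := by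
  simp [dl]

theorem cn_single {n : ℕ} (b : P) (v : Fin n → P) (a : ℤ) :
    cn b n (single v a) = single (Matrix.vecCons b v) a := mapDomain_single

theorem mp_single {n : ℕ} (g : P → Q) (v : Fin n → P) (a : ℤ) :
    mp g n (single v a) = single (g ∘ v) a := mapDomain_single

theorem dl_cn0 (b : P) (x : L P 0) : dl P 0 (cn b 0 x) = x := by
  refine lin_ext (f := dl P 0 ∘ₗ cn b 0) (g := .id) (fun v => ?_) x
  simp only [LinearMap.comp_apply, cn_single, dl_single, LinearMap.id_apply]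
  simp [Subsingleton.elim (Matrix.vecCons b v ∘ _) v]

theorem dl_cn (b : P) {n : ℕ} (x : L P (n + 1)) :
    dl P (n + 1) (cn b (n + 1) x) = x - cn b n (dl P n x) := by
  refine lin_ext (f := dl P (n + 1) ∘ₗ cn b (n + 1)) (g := .id - cn b n ∘ₗ dl P n) (fun v => ?_) x
  have h0 : Matrix.vecCons b v ∘ (0 : Fin (n + 2)).succAbove = v := funext fun j => by simp
  have h1 : ∀ i : Fin (n + 1), Matrix.vecCons b v ∘ i.succ.succAbove =
      Matrix.vecCons b (v ∘ i.succAbove) := fun i => funext fun j => by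
    refine Fin.cases ?_ (fun j => ?_) j <;> simp
  simp only [LinearMap.comp_apply, cn_single, dl_single, LinearMap.sub_apply, LinearMap.id_apply,
    map_sum, map_smul]
  rw [Fin.sum_univ_succ, h0]
  simp only [h1, Fin.val_zero, pow_zero, one_smul, Fin.val_succ, pow_succ, mul_neg_one, neg_smul,
    Finset.sum_neg_distrib, sub_eq_add_neg]

theorem dl_dl {n : ℕ} (x : L P (n + 2)) : dl P n (dl P (n + 1) x) = 0 := by
  induction n with
  | zero =>
    refine lin_ext (f := dl P 0 ∘ₗ dl P 1) (g := 0) (fun v => ?_) x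
    rw [← Matrix.cons_head_tail v, ← cn_single, LinearMap.comp_apply, dl_cn, map_sub, dl_cn0,
      sub_self, LinearMap.zero_apply]
  | succ n ih =>
    refine lin_ext (f := dl P (n + 1) ∘ₗ dl P (n + 2)) (g := 0) (fun v => ?_) x
    rw [← Matrix.cons_head_tail v, ← cn_single, LinearMap.comp_apply, dl_cn, map_sub, dl_cn, ih,
      map_zero, sub_zero, sub_self, LinearMap.zero_apply]

theorem mp_dl (g : P → Q) {n : ℕ} (x : L P (n + 1)) :
    mp g n (dl P n x) = dl Q n (mp g (n + 1) x) := by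
  refine lin_ext (f := mp g n ∘ₗ dl P n) (g := dl Q n ∘ₗ mp g (n + 1)) (fun v => ?_) x
  simp only [LinearMap.comp_apply, dl_single, map_sum, map_smul, mp_single, Function.comp_assoc]

theorem mp_cn (g : P → Q) (b : P) {n : ℕ} (x : L P n) :
    mp g (n + 1) (cn b n x) = cn (g b) n (mp g n x) := by
  refine lin_ext (f := mp g (n + 1) ∘ₗ cn b n) (g := cn (g b) n ∘ₗ mp g n) (fun v => ?_) x
  simp only [LinearMap.comp_apply, cn_single, mp_single]
  congr 1
  funext j
  refine Fin.cases ?_ (fun j => ?_) j <;> simp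

theorem mp_mp (g : P → Q) (g' : Q → Q') {n : ℕ} (x : L P n) :
    mp g' n (mp g n x) = mp (g' ∘ g) n x := by
  refine lin_ext (f := mp g' n ∘ₗ mp g n) (fun v => ?_) x
  simp only [LinearMap.comp_apply, mp_single, Function.comp_assoc]

/-- The subdivision with the centres `β`. -/
noncomputable def sd (β : ∀ n, (Fin (n + 1) → P) → P) : ∀ n, L P n →ₗ[ℤ] L P n
  | 0 => .id
  | n + 1 => linearCombination ℤ fun v => cn (β n v) n (sd β n (dl P n (single v 1)))

theorem sd_single (β : ∀ n, (Fin (n + 1) → P) → P) {n : ℕ} (v : Fin (n + 1) → P) :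
    sd β (n + 1) (single v 1) = cn (β n v) n (sd β n (dl P n (single v 1))) := by
  rw [sd, linearCombination_single, one_smul]

theorem dl_sd (β : ∀ n, (Fin (n + 1) → P) → P) {n : ℕ} (x : L P (n + 1)) :
    dl P n (sd β (n + 1) x) = sd β n (dl P n x) := by
  induction n with
  | zero =>
    refine lin_ext (f := dl P 0 ∘ₗ sd β 1) (g := sd β 0 ∘ₗ dl P 0) (fun v => ?_) x
    rw [LinearMap.comp_apply, sd_single, dl_cn0, LinearMap.comp_apply]
  | succ n ih =>
    refine lin_ext (f := dl P (n + 1) ∘ₗ sd β (n + 2)) (g := sd β (n + 1) ∘ₗ dl P (n + 1))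
      (fun v => ?_) x
    rw [LinearMap.comp_apply, sd_single, dl_cn, ih, dl_dl, map_zero, map_zero, sub_zero,
      LinearMap.comp_apply]

theorem mp_sd {β : ∀ n, (Fin (n + 1) → P) → P} {β' : ∀ n, (Fin (n + 1) → Q) → Q} {g : P → Q}
    (h : ∀ n v, g (β n v) = β' n (g ∘ v)) {n : ℕ} (x : L P n) :
    mp g n (sd β n x) = sd β' n (mp g n x) := by
  induction n with
  | zero => rfl
  | succ n ih =>
    refine lin_ext (f := mp g _ ∘ₗ sd β _) (g := sd β' _ ∘ₗ mp g _) (fun v => ?_) x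
    rw [LinearMap.comp_apply, LinearMap.comp_apply, sd_single, mp_cn, ih, mp_dl, mp_single,
      sd_single, h]

/-- The homotopy for a difference `F` of two chain maps, with the cone points `u (v 0)`. -/
noncomputable def hm (u : P → Q) (F : ∀ n, L P n →ₗ[ℤ] L Q n) : ∀ n, L P n →ₗ[ℤ] L Q (n + 1)
  | 0 => 0
  | n + 1 => linearCombination ℤ fun v =>
      cn (u (v 0)) (n + 1) (F (n + 1) (single v 1) - hm u F n (dl P n (single v 1)))

theorem hm_single (u : P → Q) (F : ∀ n, L P n →ₗ[ℤ] L Q n) {n : ℕ} (v : Fin (n + 1) → P) :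
    hm u F (n + 1) (single v 1) =
      cn (u (v 0)) (n + 1) (F (n + 1) (single v 1) - hm u F n (dl P n (single v 1))) := by
  rw [hm, linearCombination_single, one_smul]

theorem dl_hm (u : P → Q) {F : ∀ n, L P n →ₗ[ℤ] L Q n} (h0 : ∀ x, F 0 x = 0)
    (hF : ∀ n x, dl Q n (F (n + 1) x) = F n (dl P n x)) {n : ℕ} (x : L P (n + 1)) :
    dl Q (n + 1) (hm u F (n + 1) x) = F (n + 1) x - hm u F n (dl P n x) := by
  induction n with
  | zero =>
    refine lin_ext (f := dl Q 1 ∘ₗ hm u F 1) (g := F 1 - hm u F 0 ∘ₗ dl P 0) (fun v => ?_) x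
    rw [LinearMap.comp_apply, hm_single, dl_cn, map_sub, hF, h0]
    simp [hm]
  | succ n ih =>
    refine lin_ext (f := dl Q _ ∘ₗ hm u F _) (g := F _ - hm u F _ ∘ₗ dl P _) (fun v => ?_) x
    rw [LinearMap.comp_apply, hm_single, dl_cn, map_sub, hF, ih, dl_dl]
    simp

theorem mp_hm {u : P → Q} {u' : P' → Q'} {F : ∀ n, L P n →ₗ[ℤ] L Q n}
    {F' : ∀ n, L P' n →ₗ[ℤ] L Q' n} {g : P → P'} {g' : Q → Q'} (hu : ∀ p, g' (u p) = u' (g p))
    (h : ∀ n x, mp g' n (F n x) = F' n (mp g n x)) {n : ℕ} (x : L P n) :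
    mp g' (n + 1) (hm u F n x) = hm u' F' n (mp g n x) := by
  induction n with
  | zero => simp [hm]
  | succ n ih =>
    refine lin_ext (f := mp g' _ ∘ₗ hm u F _) (g := hm u' F' _ ∘ₗ mp g _) (fun v => ?_) x
    rw [LinearMap.comp_apply, LinearMap.comp_apply, hm_single, mp_cn, map_sub, h, ih, mp_dl,
      mp_single, hm_single, hu]
    rfl

end Pool.Agent.Lib.MP_e039bb_gt
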