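import Pool.Agent.Lib.MP_e039bb_gt.Pd.Cap

/-! Poincare duality by induction on the degree. -/

namespace Pool.Agent.Lib.MP_e039bb_gt

open Finsupp stdSimplex Set Filter Topology

variable {X : Type} [TopologicalSpace X] {n p j : ℕ} {K A B : Set X} {c : Ch X 4}

/-- The cap product with a subdivision of `c`. -/
noncomputable def cc (c : Ch X 4) (φ : Coc X p) (j m : ℕ) : Ch X j := cp φ j 4 ((sds X 4 ^ m) c)

/-- The dual of `φ` near `K` is `z`. -/
def R (c : Ch X 4) (K : Set X) (φ : Coc X p) (z : Ch X j) : Prop :=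
  ∀ᶠ m in atTop, cc c φ j m - z ∈ Br K j

theorem R.mono {φ : Coc X p} {z : Ch X j} (h : R c B φ z) (h1 : A ⊆ B) : R c A φ z :=
  Eventually.mono h fun _ => Br_mono h1

theorem R.sub {φ ψ : Coc X p} {z w : Ch X j} (h1 : R c K φ z) (h2 : R c K ψ w) :
    R c K (φ - ψ) (z - w) := (h1.and h2).mono fun m h => by
  have h3 := sub_mem h.1 h.2
  rwa [sub_sub_sub_comm, cc, cc, ← cp_sub] at h3

theorem nb_out (hK : IsClosed K) {φ : Coc X p} (h : φ ∈ Nb K p) :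
    ∀ᶠ m in atTop, cc c φ j m ∈ Out K j := by
  obtain ⟨𝒲, h1, h2, -⟩ := Nb_small hK h
  exact (h1 4 c).mono fun m => h2 j 4 _

theorem R_nb (hK : IsClosed K) {φ : Coc X p} (h : φ ∈ Nb K p) : R c K φ (0 : Ch X j) :=
  (nb_out (c := c) hK h).mono fun m h => (sub_zero (cc c φ j m)).symm ▸ Br_out h

theorem sq_smul (p : ℕ) (z : Ch X j) : (-1 : ℤ) ^ p • (-1 : ℤ) ^ p • z = z := by
  rw [smul_smul, ← mul_pow]
  simp

theorem cp_bd (h : p + j = n) {φ : Coc X p} {t : Ch X (n + 1)}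
    (h1 : cp (φ ∘ₗ bd X p) j (n + 1) t ∈ Out K j) : cp φ j n (bd X n t) ∈ Br K j := by
  have h2 := add_mem (Submodule.smul_mem _ ((-1 : ℤ) ^ p) (Br_bd (cp φ (j + 1) (n + 1) t)))
    (Br_out h1)
  rwa [bd_cp h, sq_smul, sub_add_cancel] at h2

/-- The coboundaries. -/
noncomputable def Bd (X : Type) [TopologicalSpace X] : ∀ p, Submodule ℤ (Coc X p)
  | 0 => ⊥
  | p + 1 => LinearMap.range (bd X p).dualMap

theorem dd (ψ : Coc X p) : (ψ ∘ₗ bd X p) ∘ₗ bd X (p + 1) = 0 :=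
  LinearMap.ext fun z => (congrArg ψ (bd_bd z)).trans (map_zero ψ)

theorem Bd_bd {γ : Coc X p} (h : γ ∈ Bd X p) : γ ∘ₗ bd X p = 0 := by
  cases p with
  | zero => rw [(Submodule.mem_bot ℤ).1 h, LinearMap.zero_comp]
  | succ p =>
    obtain ⟨ψ, rfl⟩ := h
    exact dd ψ

/-- Injectivity. -/
def Inj (c : Ch X 4) (K : Set X) (p j : ℕ) : Prop := ∀ φ : Coc X p, φ ∘ₗ bd X p ∈ Nb K (p + 1) →
  R c K φ (0 : Ch X j) → ∃ γ ∈ Bd X p, φ - γ ∈ Nb K p

/-- Surjectivity. -/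
def Sur (c : Ch X 4) (K : Set X) (p j : ℕ) : Prop :=
  ∀ z ∈ Zr K j, ∃ φ : Coc X p, φ ∘ₗ bd X p ∈ Nb K (p + 1) ∧ R c K φ z

/-- Surjectivity one degree lower, seen through the connecting maps. -/
def Cn (c : Ch X 4) (K : Set X) (p j : ℕ) : Prop :=
  ∀ w ∈ Zr K (j + 1), ∃ ν ∈ Nb K p, ν ∘ₗ bd X p = 0 ∧
    ∀ᶠ m in atTop, ∃ s ∈ Out K (j + 1), bd X j s = cc c ν j m - bd X j w

theorem cn_zero (h : Van K (j + 1)) : Cn c K p j := fun w hw => by
  obtain ⟨o, ho, t, e⟩ := Br_ex (h w hw)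
  exact ⟨0, zero_mem _, LinearMap.zero_comp _, .of_forall fun m => ⟨-o, neg_mem ho, by
    rw [cc, cp_zero, e, map_add, bd_bd, add_zero, map_neg, zero_sub]⟩⟩

section
variable (hc : bd X 3 c = 0)
include hc

theorem bd_cm (m : ℕ) : bd X 3 ((sds X 4 ^ m) c) = 0 := by rw [bd_pow, hc, map_zero]

theorem bd_cc (h : p + j = 3) (φ : Coc X p) (m : ℕ) : bd X j (cc c φ (j + 1) m) =
    cc c ((-1 : ℤ) ^ (p + 1) • φ ∘ₗ bd X p) j m := by
  rw [cc, bd_cp h, bd_cm hc, map_zero, zero_sub, cc, cp_smul, pow_succ, mul_neg_one, neg_smul,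
    smul_neg]

theorem R_stab (h : p + j = 4) (hK : IsClosed K) {φ : Coc X p} (h1 : φ ∘ₗ bd X p ∈ Nb K (p + 1)) :
    ∀ᶠ m in atTop, R c K φ (cc c φ j m) := by
  obtain ⟨𝒲, h2, h3, -⟩ := Nb_small hK h1
  refine (h2 4 c).mono fun m hm => eventually_atTop.2 ⟨m, fun i hi => ?_⟩
  obtain ⟨i, rfl⟩ := Nat.exists_eq_add_of_le' hi
  have h4 := neg_mem (cp_bd h (h3 j 5 _ ((dn_in 𝒲).tn hm i)))
  rwa [bd_tn, bd_cm hc, map_zero, sub_zero, map_sub, neg_sub, ← Module.End.mul_apply,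
    ← pow_add] at h4

theorem R_Bd (h : p + j = 4) {γ : Coc X p} (h1 : γ ∈ Bd X p) : R c K γ (0 : Ch X j) := by
  refine .of_forall fun m => ?_
  rw [sub_zero]
  cases p with
  | zero => rw [(Submodule.mem_bot ℤ).1 h1, cc, cp_zero]; exact zero_mem _
  | succ p =>
    obtain ⟨ψ, rfl⟩ := h1
    have h2 := Submodule.smul_mem (Br K j) ((-1 : ℤ) ^ (p + 1)) (Br_bd (cc c ψ (j + 1) m))
    rwa [bd_cc hc (by omega), cc, cp_smul, sq_smul] at h2

theorem R_one (k : ℤ) : R c K (k • one X) (k • c) := .of_forall fun m => by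
  rw [cc, cp_smul, cp_one, ← smul_sub, ← neg_sub, smul_neg]
  exact neg_mem (Submodule.smul_mem _ k (sub_pow (hc ▸ zero_mem _) m))

theorem cn_succ (h : p + j = 3) (h1 : Sur c K p (j + 1)) : Cn c K (p + 1) j := fun w hw => by
  obtain ⟨ψ, h2, h3⟩ := h1 w hw
  refine ⟨_, Submodule.smul_mem _ ((-1 : ℤ) ^ (p + 1)) h2, by
    rw [LinearMap.smul_comp, dd, smul_zero], Eventually.mono h3 fun m hm => ?_⟩
  obtain ⟨s, hs, t, e⟩ := Br_ex hm
  exact ⟨s, hs, by rw [← bd_cc hc h, ← map_sub, e, map_add, bd_bd, add_zero]⟩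

variable [T2Space X] [CompactSpace X]

theorem inj_zero (hX : Loc X) (h0 : ∀ x, ∀ k : ℤ, k • c ∈ Br {x} 4 → k = 0) (hK : IsClosed K) :
    Inj c K 0 4 := fun φ h1 h2 => by
  refine ⟨0, zero_mem _, (sub_zero φ).symm ▸ cover (P := fun A => φ ∈ Nb A 0) hK
    (fun _ h => h.elim) (fun _ _ => Nb_mono) (fun _ _ _ _ _ _ => Nb_union) fun x hx => ?_⟩
  have h3 := singleton_subset_iff.2 hx
  obtain ⟨k, hk⟩ := loc_zero hX (Nb_mono h3 h1)
  obtain ⟨m, hm⟩ := (((h2.mono h3).sub (R_nb isClosed_singleton hk)).sub (R_one hc k)).exists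
  rw [sub_sub_cancel, sub_self, cc, cp_zero, sub_zero, zero_sub, zero_sub, neg_neg] at hm
  rw [h0 x k hm, zero_smul, sub_zero] at hk
  exact Nb_nhds hk

theorem inj_succ (hX : Loc X) (h : p + j = 3) (hS : ∀ K, IsClosed K → Sur c K p (j + 1))
    (hI : ∀ K, IsClosed K → Inj c K p (j + 1)) (hK : IsClosed K) : Inj c K (p + 1) j := by
  intro φ h1 h2
  refine (cover (P := fun A => ∃ ψ : Coc X p, φ - ψ ∘ₗ bd X p ∈ Nb A (p + 1)) hK
    ⟨0, fun _ h => h.elim⟩ (fun _ _ h => Exists.imp fun _ => Nb_mono h) ?_ fun x hx => ?_).elim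
    fun ψ h3 => ⟨_, ⟨ψ, rfl⟩, h3⟩
  swap
  · obtain ⟨ψ, h3⟩ := loc_succ hX (Nb_mono (singleton_subset_iff.2 hx) h1)
    exact (Nb_nhds h3).imp fun W h => ⟨h.1, ψ, h.2⟩
  rintro A B hA hB a0 b0 ⟨α, a1⟩ ⟨β, b1⟩
  have h3 : (α - β) ∘ₗ bd X p ∈ Nb (A ∩ B) (p + 1) := by
    have h4 := sub_mem (Nb_mono inter_subset_right b1) (Nb_mono inter_subset_left a1)
    rwa [sub_sub_sub_cancel_left, ← LinearMap.sub_comp] at h4
  obtain ⟨m, ⟨⟨h4, a2⟩, b2⟩, h5⟩ := (((h2.and (nb_out (c := c) (j := j) hA a1)).and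
    (nb_out (c := c) (j := j) hB b1)).and (R_stab hc (j := j + 1) (by omega) (hA.inter hB) h3)).exists
  obtain ⟨o, ho, w, e⟩ := Br_ex h4
  have h6 : ∀ C ⊆ K, ∀ α : Coc X p, cc c (φ - α ∘ₗ bd X p) j m ∈ Out C j →
      cc c α (j + 1) m - (-1 : ℤ) ^ (p + 1) • w ∈ Zr C (j + 1) := fun C hC α h7 => by
    refine Submodule.mem_comap.2 ?_
    rw [map_sub, bd_cc hc h, cc, cp_smul, map_smul, ← smul_sub]
    rw [cc, cp_sub] at h7
    rw [cc, sub_zero] at e
    convert Submodule.smul_mem _ ((-1 : ℤ) ^ (p + 1)) (sub_mem (Out_mono hC ho) h7) using 2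
    rw [e]
    abel
  obtain ⟨α', a3, a4⟩ := hS A hA _ (h6 A a0 α a2)
  obtain ⟨β', b3, b4⟩ := hS B hB _ (h6 B b0 β b2)
  have h7 := h5.sub ((a4.mono inter_subset_left).sub (b4.mono inter_subset_right))
  rw [sub_sub_sub_cancel_right, cc, cc, cc, cp_sub, sub_self] at h7
  obtain ⟨γ, g1, g2⟩ := hI _ (hA.inter hB) _ (by
    rw [LinearMap.sub_comp, LinearMap.sub_comp _ α']
    exact sub_mem h3 (sub_mem (Nb_mono inter_subset_left a3) (Nb_mono inter_subset_right b3))) h7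
  obtain ⟨μ, m1, ν, n1, e1⟩ := Nb_inter hA hB g2
  have e2 : α - α' - μ - γ = β - β' + ν := by linear_combination (norm := abel1) e1
  refine ⟨β - β' + ν, Nb_union ?_ ?_⟩
  · convert add_mem (add_mem a1 a3) (Nb_bd m1) using 1
    rw [← e2, LinearMap.sub_comp, Bd_bd g1, LinearMap.sub_comp, LinearMap.sub_comp]
    abel
  · convert sub_mem (add_mem b1 b3) (Nb_bd n1) using 1
    rw [LinearMap.add_comp, LinearMap.sub_comp]
    abel

theorem sur_of (h : p + j = 4) (hI : ∀ K, IsClosed K → Inj c K p j)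
    (hC : ∀ K, IsClosed K → Cn c K p j) (hL : ∀ x, Sur c {x} p j) (hK : IsClosed K) :
    Sur c K p j := fun z hz => by
  refine cover (P := fun A => ∃ φ : Coc X p, φ ∘ₗ bd X p ∈ Nb A (p + 1) ∧ R c A φ z) hK
    ⟨0, fun _ h => h.elim, .of_forall fun _ => Br_out (Out_empty _)⟩
    (fun _ _ h => Exists.imp fun _ h1 => ⟨Nb_mono h h1.1, h1.2.mono h⟩) ?_ fun x hx => ?_
  · rintro A B hA hB - - ⟨α, a1, a2⟩ ⟨β, b1, b2⟩
    obtain ⟨γ, g1, g2⟩ := hI _ (hA.inter hB) (α - β) (by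
      rw [LinearMap.sub_comp]
      exact sub_mem (Nb_mono inter_subset_left a1) (Nb_mono inter_subset_right b1))
      (sub_self z ▸ (a2.mono inter_subset_left).sub (b2.mono inter_subset_right))
    obtain ⟨μ, m1, ν, n1, e1⟩ := Nb_inter hA hB g2
    have e2 : α - μ - γ = β - -ν := by linear_combination (norm := abel1) e1
    have a3 := (a2.sub (R_nb hA m1)).sub (R_Bd hc h g1)
    have b3 := b2.sub (R_nb hB (neg_mem n1))
    rw [sub_zero, sub_zero, e2] at a3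
    rw [sub_zero] at b3
    have h1 : (β - -ν) ∘ₗ bd X p ∈ Nb (A ∪ B) (p + 1) := Nb_union (by
      rw [← e2, LinearMap.sub_comp, Bd_bd g1, sub_zero, LinearMap.sub_comp]
      exact sub_mem a1 (Nb_bd m1)) (by
      rw [LinearMap.sub_comp]
      exact sub_mem b1 (Nb_bd (neg_mem n1)))
    obtain ⟨m, ⟨a4, b4⟩, h2⟩ := ((a3.and b3).and (R_stab hc h (hA.union hB) h1)).exists
    obtain ⟨a, ha, v, e3⟩ := Br_ex a4
    obtain ⟨b, hb, w, e4⟩ := Br_ex b4
    have e5 : bd X j (v - w) = b - a := by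
      rw [map_sub]
      linear_combination (norm := abel1) e4 - e3
    obtain ⟨κ, k1, k2, k3⟩ := hC _ (hA.inter hB) (v - w) (show _ ∈ Out _ j from e5 ▸
      sub_mem (Out_mono inter_subset_right hb) (Out_mono inter_subset_left ha))
    obtain ⟨μ', m2, ν', n2, rfl⟩ := Nb_inter hA hB k1
    refine ⟨β - -ν + μ', ?_, ?_⟩
    · rw [LinearMap.add_comp] at k2 ⊢
      exact add_mem h1 (Nb_union (Nb_bd m2) (eq_neg_of_add_eq_zero_left k2 ▸ neg_mem (Nb_bd n2)))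
    · filter_upwards [h2, k3, nb_out (c := c) (j := j) hA m2, nb_out (c := c) (j := j) hB n2]
        with i h3 ⟨s, hs, e6⟩ a5 b5
      have h4 := glue hA hB (add_mem a5 ha) (sub_mem b5 hb) hs (by
        rw [e6, e5, cc, cp_add, cc, cc]
        abel)
      convert add_mem (add_mem h3 h4) (Br_bd v) using 1
      rw [cc, cp_add, ← cc, ← cc]
      linear_combination (norm := abel1) e3
  · obtain ⟨φ, h1, h2⟩ := hL x z (Zr_mono (singleton_subset_iff.2 hx) hz)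
    obtain ⟨W, h3, h4⟩ := Nb_nhds h1
    obtain ⟨V, h5, h6, h7⟩ := exists_mem_nhds_isClosed_subset h3
    obtain ⟨m, h8, h9⟩ := (h2.and (R_stab hc h h6 (Nb_mono h7 h4))).exists
    obtain ⟨o, ho, w, e⟩ := Br_ex h8
    obtain ⟨U, u1, u2, u3⟩ := taut ho
    refine ⟨V ∩ U, inter_mem h5 (u1.mem_nhds (u2 rfl)), φ, Nb_mono (inter_subset_left.trans h7) h4,
      Eventually.mono h9 fun i hi => ?_⟩
    rw [← sub_add_sub_cancel _ (cc c φ j m), e]
    exact add_mem (Br_mono inter_subset_left hi)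
      (add_mem (Br_out (Out_mono inter_subset_right u3)) (Br_bd w))

theorem sur_two (hX : Loc X) (h0 : ∀ x, ∀ k : ℤ, k • c ∈ Br {x} 4 → k = 0)
    (h1 : ∀ x, ∀ z ∈ Zr {x} 4, ∃ k : ℤ, z - k • c ∈ Br {x} 4) : Sur c univ 2 2 := by
  have hL : ∀ p j, j ≠ 3 → ∀ x, Sur c {x} p (j + 1) := fun p j h x z hz =>
    ⟨0, zero_mem _, .of_forall fun m => by
      rw [cc, cp_zero, zero_sub]
      exact neg_mem (van_pt hX x h z hz)⟩
  have i0 := fun K => inj_zero (K := K) hc hX h0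
  have s0 := fun K => sur_of (K := K) hc rfl i0 (fun K h => cn_zero (van_high hX h le_rfl))
    fun x z hz => by
      obtain ⟨k, hk⟩ := h1 x z hz
      refine ⟨k • one X, by rw [LinearMap.smul_comp, one_bd, smul_zero]; exact zero_mem _,
        Eventually.mono (R_one (K := {x}) hc k) fun m hm => ?_⟩
      have h2 := sub_mem hm hk
      rwa [sub_sub_sub_cancel_right] at h2
  have i1 := fun K => inj_succ (K := K) hc hX rfl s0 i0
  have s1 := fun K => sur_of (K := K) hc rfl i1 (fun K h => cn_succ hc rfl (s0 K h))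
    (hL 1 2 (by omega))
  exact sur_of hc rfl (fun K => inj_succ hc hX rfl s1 i1) (fun K h => cn_succ hc rfl (s1 K h))
    (hL 2 1 (by omega)) isClosed_univ

theorem dual (hX : Loc X) (h0 : ∀ x, ∀ k : ℤ, k • c ∈ Br {x} 4 → k = 0)
    (h1 : ∀ x, ∀ z ∈ Zr {x} 4, ∃ k : ℤ, z - k • c ∈ Br {x} 4) : Dual c := by
  refine ⟨hc, fun z hz => ?_⟩
  obtain ⟨φ, h2, h3⟩ := sur_two hc hX h0 h1 z (Submodule.mem_comap.2 (hz ▸ zero_mem _))
  obtain ⟨𝒲, w1, -, w2⟩ := Nb_small isClosed_univ h2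
  have w3 : ∀ y ∈ Sm (In 𝒲) 3, φ (bd X 2 y) = 0 := fun y hy =>
    sup_map (f := φ ∘ₗ bd X 2) (N := ⊥) (fun σ hσ => by
      obtain ⟨W, a, b⟩ : In 𝒲 (range σ) := hσ
      rcases w2 W a with rfl | h
      · exact (b ⟨barycenter, rfl⟩ trivial).elim
      · exact h σ b) hy
  have h4 : ∀ τ : Sx X 2, ∃ k, ∀ᶠ m in atTop, φ (bd X 2 (tn X 2 m (single τ 1))) = k := fun τ => by
    obtain ⟨m, hm⟩ := eventually_atTop.1 (w1 2 (single τ 1))
    refine ⟨φ (bd X 2 (tn X 2 m (single τ 1))), eventually_atTop.2 ⟨m, fun i hi => ?_⟩⟩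
    induction i, hi using Nat.le_induction with
    | base => rfl
    | succ i hi ih => rw [tn_succ, map_add, map_add, ih, w3 _ ((dn_in 𝒲).ts (hm i hi)), add_zero]
  choose g hg using h4
  let ψ : Coc X 2 := linearCombination ℤ g
  have h5 : ∀ y : Ch X 2, ∀ᶠ m in atTop, φ (bd X 2 (tn X 2 m y)) = ψ y := fun y => by
    induction y using Finsupp.induction_linear with
    | zero => simp
    | add a b ha hb => exact (ha.and hb).mono fun m h => by simp only [map_add, h.1, h.2]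
    | single τ a =>
      refine (hg τ).mono fun m h => ?_
      rw [← smul_single_one, map_smul, map_smul, map_smul, map_smul, h, linearCombination_single,
        one_smul]
  have h6 : (φ - ψ) ∘ₗ bd X 2 = 0 := LinearMap.ext fun y => by
    obtain ⟨m, a, b⟩ := ((h5 (bd X 2 y)).and (w1 3 y)).exists
    have h7 := congrArg (fun u => φ (bd X 2 u)) (bd_tn y m)
    simp only [bd_bd, map_zero, map_sub, w3 _ b, a, sub_zero] at h7
    exact h7.symm
  have h7 : ψ ∈ Nb univ 2 := fun x _ => by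
    obtain ⟨U, a, b, h⟩ := h2 x trivial
    refine ⟨U, a, b, fun τ hτ => ?_⟩
    obtain ⟨m, hm⟩ := (h5 (single τ 1)).exists
    exact hm ▸ h.ch ((dn_sub U).tn (single_Sm hτ) m)
  obtain ⟨m, hm⟩ := (h3.sub (R_nb isClosed_univ h7)).exists
  have h8 := cp_bd (K := univ) (j := 2) (φ := φ - ψ) (t := tn X 4 m c) rfl
    (by rw [h6, cp_zero]; exact zero_mem _)
  rw [bd_tn, hc, map_zero, sub_zero, map_sub] at h8
  obtain ⟨o, ho, w, e⟩ := Br_ex (neg_mem (add_mem h8 hm))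
  refine ⟨fun σ => (φ - ψ) (single σ 1), w, ?_, ?_⟩
  · rw [← h6]
    congr 1
    exact LinearMap.ext (lin_ext fun σ => by rw [linearCombination_single, one_smul])
  · rw [Out_univ ho, zero_add, cc] at e
    rw [← cp_cap, ← e]
    abel

end

end Pool.Agent.Lib.MP_e039bb_gt
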