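import Pool.Agent.Lib.MP_e039bb_gt.Pd.Small

/-! Relative homology: Mayer-Vietoris arguments and boxes. -/

namespace Pool.Agent.Lib.MP_e039bb_gt

open Finsupp stdSimplex Set Filter

variable {X Y : Type} [TopologicalSpace X] [TopologicalSpace Y]

/-- The relative boundaries. -/
noncomputable def Br (K : Set X) (n : ℕ) : Submodule ℤ (Ch X n) :=
  Out K n ⊔ LinearMap.range (bd X n)

/-- The relative cycles. -/
noncomputable def Zr (K : Set X) : ∀ n, Submodule ℤ (Ch X n)
  | 0 => ⊤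
  | n + 1 => (Out K n).comap (bd X n)

/-- The relative homology vanishes. -/
def Van (K : Set X) (n : ℕ) : Prop := ∀ z ∈ Zr K n, z ∈ Br K n

variable {K A B : Set X} {n : ℕ}

theorem Br_out {z : Ch X n} (h : z ∈ Out K n) : z ∈ Br K n := Submodule.mem_sup_left h

theorem Br_bd (w : Ch X (n + 1)) : bd X n w ∈ Br K n := Submodule.mem_sup_right ⟨w, rfl⟩

theorem Br_ex {z : Ch X n} (h : z ∈ Br K n) : ∃ o ∈ Out K n, ∃ w, z = o + bd X n w := by
  obtain ⟨o, ho, _, ⟨w, rfl⟩, e⟩ := Submodule.mem_sup.1 h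
  exact ⟨o, ho, w, e.symm⟩

theorem Br_mono (h : A ⊆ B) {z : Ch X n} (hz : z ∈ Br B n) : z ∈ Br A n :=
  sup_le_sup_right (Out_mono h) _ hz

theorem Out_bd {z : Ch X (n + 1)} (h : z ∈ Out K (n + 1)) : bd X n z ∈ Out K n := (dn_sub _).bd h

theorem Zr_out {z : Ch X n} (h : z ∈ Out K n) : z ∈ Zr K n := by
  cases n with
  | zero => trivial
  | succ n => exact Out_bd h

theorem Zr_bd (w : Ch X (n + 1)) : bd X n w ∈ Zr K n := by
  cases n with
  | zero => trivial
  | succ n => exact Submodule.mem_comap.2 ((bd_bd w).symm ▸ zero_mem _)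

theorem Zr_union {z : Ch X n} (h1 : z ∈ Zr A n) (h2 : z ∈ Zr B n) : z ∈ Zr (A ∪ B) n := by
  cases n with
  | zero => trivial
  | succ n => exact Out_union h1 h2

theorem Zr_mono (h : A ⊆ B) {z : Ch X n} (hz : z ∈ Zr B n) : z ∈ Zr A n := by
  cases n with
  | zero => trivial
  | succ n => exact Out_mono h hz

theorem Out_empty (z : Ch X n) : z ∈ Out ∅ n := fun _ _ _ _ h => h

theorem Out_univ {z : Ch X n} (h : z ∈ Out univ n) : z = 0 := by
  by_contra h1
  obtain ⟨σ, hσ⟩ := support_nonempty_iff.2 h1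
  exact h hσ ⟨barycenter, rfl⟩ trivial

theorem sub_pow {z : Ch X (n + 1)} (h : bd X n z ∈ Out K n) (m : ℕ) :
    z - (sds X (n + 1) ^ m) z ∈ Br K (n + 1) := by
  have h1 := add_mem (Br_bd (K := K) (tn X (n + 1) m z)) (Br_out ((dn_sub _).tn h m))
  rwa [bd_tn, sub_add_cancel] at h1

theorem glue (hA : IsClosed A) (hB : IsClosed B) {a b : Ch X n} (ha : a ∈ Out A n)
    (hb : b ∈ Out B n) {s : Ch X (n + 1)} (hs : s ∈ Out (A ∩ B) (n + 1)) (h : bd X n s = a + b) :
    a ∈ Br (A ∪ B) n := by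
  obtain ⟨a', ha', b', hb', t, -, e⟩ := split hA.isOpen_compl hB.isOpen_compl
    (by rwa [← compl_inter]) ha hb h
  rw [e, map_add, map_add, bd_bd, add_zero] at h
  have h1 : a - bd X n a' = bd X n b' - b := by linear_combination (norm := abel1) -h
  have h2 := add_mem (Br_out (Out_union (sub_mem ha (Out_bd ha'))
    (h1 ▸ sub_mem (Out_bd hb') hb))) (Br_bd a')
  rwa [sub_add_cancel] at h2

theorem van_union (hA : IsClosed A) (hB : IsClosed B) (h1 : Van A n) (h2 : Van B n)
    (h3 : Van (A ∩ B) (n + 1)) : Van (A ∪ B) n := fun z hz => by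
  obtain ⟨a, ha, v, e1⟩ := Br_ex (h1 z (Zr_mono subset_union_left hz))
  obtain ⟨b, hb, w, e2⟩ := Br_ex (h2 z (Zr_mono subset_union_right hz))
  have e3 : bd X n (w - v) = a + -b := by
    rw [map_sub]
    linear_combination (norm := abel1) e1 - e2
  obtain ⟨s, hs, t, e4⟩ := Br_ex (h3 (w - v) (show _ ∈ Out _ n from e3 ▸
    add_mem (Out_mono inter_subset_left ha) (neg_mem (Out_mono inter_subset_right hb))))
  rw [e4, map_add, bd_bd, add_zero] at e3
  exact e1 ▸ add_mem (glue hA hB ha (neg_mem hb) hs e3) (Br_bd v)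

theorem van_inter (hA : IsClosed A) (hB : IsClosed B) (h1 : Van A (n + 1)) (h2 : Van B (n + 1))
    (h3 : Van (A ∪ B) n) : Van (A ∩ B) (n + 1) := fun z hz => by
  obtain ⟨m, hm⟩ := (small (𝒲 := {Aᶜ, Bᶜ}) (z := bd X n z) (by
    rintro _ (rfl | rfl)
    exacts [hA.isOpen_compl, hB.isOpen_compl]) (by
    rw [sUnion_pair, ← compl_inter]
    exact hz)).exists
  obtain ⟨a, ha, b, hb, e⟩ := In_pair hm
  rw [← bd_pow] at e
  obtain ⟨o, ho, w, e1⟩ := Br_ex (h3 a (Zr_union (Zr_out ha)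
    (eq_sub_of_add_eq e.symm ▸ sub_mem (Zr_bd _) (Zr_out hb))))
  have h4 := h1 w (show _ ∈ Out _ n from
    eq_sub_of_add_eq' e1.symm ▸ sub_mem ha (Out_mono subset_union_left ho))
  have e2 : bd X n ((sds X (n + 1) ^ m) z - w) = o + b := by
    rw [map_sub]
    linear_combination (norm := abel1) e + e1
  have h5 := h2 _ (show _ ∈ Out _ n from e2 ▸ add_mem (Out_mono subset_union_right ho) hb)
  have h6 := add_mem (add_mem (sub_pow hz m) (Br_mono inter_subset_right h5))
    (Br_mono inter_subset_left h4)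
  rwa [sub_add_sub_cancel, sub_add_cancel] at h6

theorem cpt (z : Ch X n) : ∃ C, IsCompact C ∧ z ∈ Sm (· ⊆ C) n ∧
    ∀ A, z ∈ Sm (· ⊆ A) n → C ⊆ A :=
  ⟨⋃ σ ∈ z.support, range σ, z.support.isCompact_biUnion fun σ _ => isCompact_range σ.continuous,
    fun _ hσ => subset_biUnion_of_mem (u := fun σ : Sx X n => range σ) hσ,
    fun _ h => iUnion₂_subset fun _ hσ => h hσ⟩

theorem taut [T2Space X] {z : Ch X n} (h : z ∈ Out K n) :
    ∃ U, IsOpen U ∧ K ⊆ U ∧ z ∈ Out U n := by
  obtain ⟨C, h1, h2, h3⟩ := cpt z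
  exact ⟨Cᶜ, h1.isClosed.isOpen_compl, subset_compl_comm.1 (h3 _ h), by rwa [Out, compl_compl]⟩

theorem push_id (z : Ch X n) : push (.id X) n z = z :=
  lin_ext (g := .id) (fun σ => push_single _ σ) z

theorem htpy (H : C(X × ℝ, X)) (h0 : lev H 0 = .id X)
    (hK : ∀ x ∈ Kᶜ, ∀ s ∈ Icc (0 : ℝ) 1, H (x, s) ∈ Kᶜ) {z : Ch X n} (hz : z ∈ Zr K n)
    (h1 : push (lev H 1) n z ∈ Out K n) : z ∈ Br K n := by
  have h2 := sub_mem (Br_out h1) (Br_bd (prism H n z))
  cases n with
  | zero => rwa [bd_prism0, h0, push_id, sub_sub_cancel] at h2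
  | succ n =>
    have h3 := sub_mem h2 (Br_out (prism_Sm H hK hz))
    rwa [bd_prism, h0, push_id, sub_sub, sub_add_cancel, sub_sub_cancel] at h3

/-- The model space. -/
abbrev E : Type := Fin 4 → ℝ

theorem van_ray {K : Set E} (v : E) (h1 : ∀ y, ∀ t : ℝ, 0 ≤ t → y + t • v ∈ K → y ∈ K)
    (l : E → ℝ) (hl : Continuous l) (hv : ∀ y t, l (y + t • v) = l y + t) {r : ℝ}
    (h2 : ∀ y ∈ K, l y ≤ r) (n : ℕ) : Van K n := fun z hz => by
  obtain ⟨C, hC, h3, -⟩ := cpt z
  obtain ⟨m, hm⟩ := (hC.image hl).bddBelow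
  refine htpy ⟨fun p => p.1 + (p.2 * (|r - m| + 1)) • v, by fun_prop⟩
    (ContinuousMap.ext fun y => by simp [lev])
    (fun y hy s hs h => hy (h1 y _ (mul_nonneg hs.1 (by positivity)) h)) hz
    (push_Sm _ (fun y hy h => ?_) h3)
  have h4 := h2 _ h
  have h5 := hm ⟨y, hy, rfl⟩
  have h6 := le_abs_self (r - m)
  change l (y + (1 * (|r - m| + 1)) • v) ≤ r at h4
  rw [hv] at h4
  linarith

/-- The radial homotopy. -/
noncomputable def rad : C(E × ℝ, E) := ⟨fun p => p.2 • p.1, by fun_prop⟩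

theorem rad_one : lev rad 1 = .id E := ContinuousMap.ext fun y => one_smul ℝ y

theorem rad_zero : lev rad 0 = .const E 0 := ContinuousMap.ext fun y => zero_smul ℝ y

theorem contr : ∃ T : ∀ n, Ch E n →ₗ[ℤ] Ch E (n + 1),
    ∀ n z, z = bd E (n + 1) (T (n + 1) z) + T n (bd E n z) := by
  let G : ∀ n, Ch E n →ₗ[ℤ] L Unit (n + 1) := fun n => lmapDomain ℤ ℤ fun _ _ => ()
  let r : ∀ k, (Fin (k + 1) → Unit) → Sx E k := fun k _ => .const _ 0
  have h0 : ∀ n σ, G n (single σ 1) = single (fun _ => ()) 1 := fun n σ => mapDomain_single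
  have h1 : ∀ n z, G n (bd E n z) = dl Unit _ (G (n + 1) z) := fun n z => by
    refine lin_ext (f := G n ∘ₗ bd E n) (g := dl Unit _ ∘ₗ G (n + 1)) (fun σ => ?_) z
    simp only [LinearMap.comp_apply, bd_single, dl_single, map_sum, map_smul, h0]
  have h2 : ∀ n z, Rl r n (G n z) = push (.const E 0) n z := fun n z => by
    refine lin_ext (f := Rl r n ∘ₗ G n) (fun σ => ?_) z
    rw [LinearMap.comp_apply, h0, Rl_single, push_single]
    rfl
  refine ⟨fun n => prism rad n + Rl r (n + 1) ∘ₗ cn () (n + 1) ∘ₗ G n, fun n z => ?_⟩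
  simp only [LinearMap.add_apply, LinearMap.comp_apply, map_add]
  rw [bd_prism, bd_Rl (fun _ _ _ => rfl), dl_cn, map_sub, h2, h1, rad_one, rad_zero, push_id]
  abel

theorem van_slab {a b : E} (h : a ≤ b) (S : Finset (Fin 4)) :
    ∀ n, n ≠ S.card → Van {y : E | ∀ i ∈ S, y i ∈ Icc (a i) (b i)} n := by
  induction S using Finset.induction_on with
  | empty =>
    intro n hn z hz
    obtain ⟨n, rfl⟩ := Nat.exists_eq_succ_of_ne_zero hn
    obtain ⟨T, hT⟩ := contr
    have h1 : bd E n z = 0 := Out_univ (Out_mono (fun _ _ => by simp) hz)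
    rw [hT n z, h1, map_zero, add_zero]
    exact Br_bd _
  | insert i S hi ih =>
    set Q := {y : E | ∀ i ∈ S, y i ∈ Icc (a i) (b i)}
    have hQ : ∀ y, ∀ t : ℝ, y + t • Pi.single i (1 : ℝ) ∈ Q → y ∈ Q := fun y t hy j hj => by
      simpa [Pi.single_eq_of_ne (ne_of_mem_of_not_mem hj hi)] using hy j hj
    have hc : IsClosed Q := by
      simp only [Q, ofPred_forall]
      exact isClosed_iInter fun j => isClosed_iInter fun _ =>
        isClosed_Icc.preimage (continuous_apply j)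
    have h1 := van_ray (K := Q ∩ {y | y i ≤ b i}) (Pi.single i 1) (fun y t ht hy =>
      ⟨hQ y t hy.1, by
        have := hy.2
        simp only [mem_ofPred_eq, Pi.add_apply, Pi.smul_apply, Pi.single_eq_same] at this ⊢
        rw [smul_eq_mul] at this
        linarith⟩) (fun y => y i) (continuous_apply i) (by simp) fun y hy => hy.2
    have h2 := van_ray (K := Q ∩ {y | a i ≤ y i}) (-Pi.single i 1) (fun y t ht hy =>
      ⟨hQ y (-t) (by simpa using hy.1), by
        have := hy.2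
        simp only [mem_ofPred_eq, Pi.add_apply, Pi.smul_apply, Pi.neg_apply, Pi.single_eq_same]
          at this ⊢
        rw [smul_eq_mul] at this
        linarith⟩) (fun y => -y i) (by fun_prop) (fun y t => by simp [add_comm])
      fun y hy => neg_le_neg hy.2
    have e1 : {y : E | ∀ j ∈ insert i S, y j ∈ Icc (a j) (b j)} =
        Q ∩ {y | y i ≤ b i} ∩ (Q ∩ {y | a i ≤ y i}) := by
      ext y
      simp only [Finset.forall_mem_insert, mem_ofPred_eq, mem_inter_iff, Q, mem_Icc]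
      tauto
    have e2 : Q ∩ {y | y i ≤ b i} ∪ Q ∩ {y | a i ≤ y i} = Q := by
      rw [← inter_union_distrib_left]
      exact inter_eq_left.2 fun y _ => (le_total (y i) (b i)).imp id (h i).trans
    intro n hn
    rw [e1]
    cases n with
    | zero => exact fun z _ => Br_mono inter_subset_left (h1 0 z trivial)
    | succ n =>
      refine van_inter (hc.inter (isClosed_le (continuous_apply i) continuous_const))
        (hc.inter (isClosed_le continuous_const (continuous_apply i))) (h1 _) (h2 _)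
        (e2.symm ▸ ih n fun e => hn ?_)
      rw [Finset.card_insert_of_notMem hi, e]

theorem van_box (a b : E) {n : ℕ} (hn : n ≠ 4) : Van (Icc a b) n := by
  by_cases h : a ≤ b
  · convert van_slab h Finset.univ n (by simpa using hn) using 1
    ext y
    simp [Pi.le_def, forall_and]
  · rw [Icc_eq_empty h]
    exact fun z _ => Br_out (Out_empty z)

theorem van_boxes {ι : Type} (s : Finset ι) : ∀ a b : ι → E, ∀ n, 5 ≤ n →
    Van (⋃ i ∈ s, Icc (a i) (b i)) n := by
  classical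
  induction s using Finset.induction_on with
  | empty => exact fun a b n _ z _ => Br_out (by simpa using Out_empty z)
  | insert i s hi ih =>
    intro a b n hn
    rw [Finset.set_biUnion_insert]
    refine van_union isClosed_Icc (isClosed_biUnion_finset fun _ _ => isClosed_Icc)
      (van_box _ _ (by omega)) (ih a b n hn) ?_
    simp only [inter_iUnion, Icc_inter_Icc]
    exact ih _ _ _ (by omega)

theorem van_cpt {K : Set E} (hK : IsCompact K) {n : ℕ} (hn : 4 ≤ n) : Van K (n + 1) :=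
  fun z hz => by
  obtain ⟨U, h1, h2, h3⟩ := taut hz
  have h4 : ∀ x : E, ∃ a b : E, Icc a b ∈ nhds x ∧ (x ∈ K → Icc a b ⊆ U) := fun x => by
    by_cases hx : x ∈ K
    · obtain ⟨r, r0, hr⟩ := Metric.nhds_basis_closedBall.mem_iff.1 (h1.mem_nhds (h2 hx))
      have h5 := Metric.closedBall_mem_nhds x r0
      simp only [closedBall_pi x r0.le, Real.closedBall_eq_Icc, pi_univ_Icc] at h5 hr
      exact ⟨_, _, h5, fun _ => hr⟩
    · have h5 := Metric.closedBall_mem_nhds x zero_lt_one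
      simp only [closedBall_pi x zero_le_one, Real.closedBall_eq_Icc, pi_univ_Icc] at h5
      exact ⟨_, _, h5, fun h => (hx h).elim⟩
  choose a b h5 h6 using h4
  obtain ⟨s, h7, h8⟩ := hK.elim_nhds_subcover (fun x => Icc (a x) (b x)) fun x _ => h5 x
  exact Br_mono h8 (van_boxes s a b _ (by omega) z
    (Out_mono (iUnion₂_subset fun x hx => h6 x (h7 x hx)) h3))

end Pool.Agent.Lib.MP_e039bb_gt
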