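import Pool.Agent.Lib.MP_e039bb_gt.Top
import Pool.Agent.Lib.MP_e039bb_gt.Pd.Form

/-! Subdivision, its homotopy and the prism operator on singular chains. -/

namespace Pool.Agent.Lib.MP_e039bb_gt

open Finsupp stdSimplex Set

/-- The standard simplex. -/
abbrev D (n : ℕ) : Type := stdSimplex ℝ (Fin (n + 1))

/-- The singular chains. -/
abbrev Ch (X : Type) [TopologicalSpace X] (n : ℕ) : Type := Sx X n →₀ ℤ

/-- The affine simplex with the vertices `v`. -/
noncomputable def aff {k n : ℕ} (v : Fin (k + 1) → D n) : C(D k, D n) where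
  toFun t := ⟨∑ i, t i • (v i).1, (convex_stdSimplex ℝ _).sum_mem (fun i _ => zero_le t i)
    (sum_eq_one t) fun i _ => (v i).2⟩
  continuous_toFun := Continuous.subtype_mk (continuous_finsetSum _ fun i _ =>
    ((continuous_apply i).comp continuous_subtype_val).smul continuous_const) _

theorem aff_val {k n : ℕ} (v : Fin (k + 1) → D n) (t : D k) :
    (aff v t).1 = ∑ i, t i • (v i).1 := rfl

theorem aff_vertex {k n : ℕ} (v : Fin (k + 1) → D n) (i : Fin (k + 1)) :
    aff v (vertex i) = v i := Subtype.ext (by simp [aff_val, Pi.single_apply])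

theorem aff_aff {k m n : ℕ} (w : Fin (m + 1) → D n) (v : Fin (k + 1) → D m) :
    aff (aff w ∘ v) = (aff w).comp (aff v) := ContinuousMap.ext fun t => Subtype.ext (by
  have h : ∀ j, aff v t j = ∑ i, t i * v i j := fun j => by
    change (aff v t).1 j = _
    rw [aff_val, Finset.sum_apply]
    rfl
  simp only [aff_val, ContinuousMap.comp_apply, Function.comp, h, Finset.smul_sum, Finset.sum_smul,
    mul_smul]
  exact Finset.sum_comm)

theorem sum_map {m n : ℕ} {E : Type} [AddCommGroup E] [Module ℝ E] (f : Fin (m + 1) → Fin (n + 1))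
    (t : D m) (x : Fin (n + 1) → E) : ∑ i, map f t i • x i = ∑ j, t j • x (f j) := by
  simp only [map_coe, FunOnFinite.linearMap_apply_apply, Finset.sum_smul]
  rw [← Finset.sum_fiberwise Finset.univ f]
  exact Finset.sum_congr rfl fun i _ => Finset.sum_congr rfl fun j hj => by
    rw [(Finset.mem_filter.1 hj).2]

theorem face_aff {k m n : ℕ} (f : Fin (k + 1) → Fin (m + 1)) (v : Fin (m + 1) → D n) :
    face f (aff v) = aff (v ∘ f) :=
  ContinuousMap.ext fun t => Subtype.ext (sum_map f t fun i => (v i).1)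

theorem aff_id {n : ℕ} : aff (vertex : Fin (n + 1) → D n) = .id _ :=
  ContinuousMap.ext fun t => Subtype.ext (funext fun j => by
    rw [aff_val, Finset.sum_apply]
    simp [Pi.single_apply]
    rfl)

variable {X Y : Type} [TopologicalSpace X] [TopologicalSpace Y]

theorem bd_single {n : ℕ} (σ : Sx X (n + 1)) : bd X n (single σ 1) =
    ∑ i : Fin (n + 2), ((-1 : ℤ) ^ (i : ℕ)) • single (face i.succAbove σ) 1 := by
  simp [bd]

/-- The singular chain that a formal chain defines. -/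
noncomputable def Rl {Q : Type} (r : ∀ k, (Fin (k + 1) → Q) → Sx Y k) (k : ℕ) :
    L Q (k + 1) →ₗ[ℤ] Ch Y k := lmapDomain ℤ ℤ (r k)

theorem Rl_single {Q : Type} (r : ∀ k, (Fin (k + 1) → Q) → Sx Y k) {k : ℕ} (v : Fin (k + 1) → Q) :
    Rl r k (single v 1) = single (r k v) 1 := mapDomain_single

theorem bd_Rl {Q : Type} {r : ∀ k, (Fin (k + 1) → Q) → Sx Y k}
    (h : ∀ k (v : Fin (k + 2) → Q) (i : Fin (k + 2)),
      face i.succAbove (r (k + 1) v) = r k (v ∘ i.succAbove)) {k : ℕ} (x : L Q (k + 2)) :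
    bd Y k (Rl r (k + 1) x) = Rl r k (dl Q (k + 1) x) := by
  refine lin_ext (f := bd Y k ∘ₗ Rl r _) (g := Rl r k ∘ₗ dl Q _) (fun v => ?_) x
  simp only [LinearMap.comp_apply, Rl_single, bd_single, dl_single, map_sum, map_smul, h]

theorem Rl_mp {Q Q' : Type} (r : ∀ k, (Fin (k + 1) → Q') → Sx Y k) (g : Q → Q') {k : ℕ}
    (x : L Q (k + 1)) : Rl r k (mp g (k + 1) x) = Rl (fun k v => r k (g ∘ v)) k x := by
  refine lin_ext (f := Rl r k ∘ₗ mp g _) (fun v => ?_) x
  simp only [LinearMap.comp_apply, mp_single, Rl_single]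

/-- The affine simplices in a singular simplex. -/
noncomputable def ra {n : ℕ} (σ : Sx X n) (k : ℕ) (v : Fin (k + 1) → D n) : Sx X k :=
  σ.comp (aff v)

theorem ra_face {n : ℕ} (σ : Sx X n) (k : ℕ) (v : Fin (k + 2) → D n) (i : Fin (k + 2)) :
    face i.succAbove (ra σ (k + 1) v) = ra σ k (v ∘ i.succAbove) := by
  rw [ra, ra, ← face_aff]
  rfl

theorem Rl_id {n : ℕ} (σ : Sx X n) : Rl (ra σ) n (single vertex 1) = single σ 1 := by
  rw [Rl_single, ra, aff_id, ContinuousMap.comp_id]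

theorem bd_bd {n : ℕ} (z : Ch X (n + 2)) : bd X n (bd X (n + 1) z) = 0 := by
  refine lin_ext (f := bd X n ∘ₗ bd X (n + 1)) (g := 0) (fun σ => ?_) z
  rw [LinearMap.comp_apply, ← Rl_id, bd_Rl (ra_face σ), bd_Rl (ra_face σ), dl_dl, map_zero,
    LinearMap.zero_apply]

theorem op_Rl {Q : ℕ → Type} (r : ∀ {n}, Sx X n → ∀ k, (Fin (k + 1) → Q n) → Sx Y k)
    (q : ∀ {m n}, (Fin (m + 1) → D n) → Q m → Q n)
    (hr : ∀ {m n} (σ : Sx X n) (w : Fin (m + 1) → D n) k v, r (ra σ m w) k v = r σ k (q w ∘ v))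
    {k l : ℕ} (F : ∀ n, L (D n) (k + 1) →ₗ[ℤ] L (Q n) (l + 1))
    (hF : ∀ {m n} (w : Fin (m + 1) → D n) x, mp (q w) _ (F m x) = F n (mp (aff w) _ x))
    {n : ℕ} (σ : Sx X n) (x : L (D n) (k + 1)) :
    linearCombination ℤ (fun τ : Sx X k => Rl (r τ) l (F k (single vertex 1))) (Rl (ra σ) k x) =
      Rl (r σ) l (F n x) := by
  refine lin_ext (f := linearCombination ℤ _ ∘ₗ Rl (ra σ) k) (g := Rl (r σ) l ∘ₗ F n)
    (fun w => ?_) x
  have h1 : aff w ∘ vertex = w := funext fun i => aff_vertex w i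
  have h2 := hF w (single vertex 1)
  rw [mp_single, h1] at h2
  rw [LinearMap.comp_apply, Rl_single, linearCombination_single, one_smul, LinearMap.comp_apply,
    ← h2, Rl_mp]
  simp only [← hr]

theorem ra_ra {m n : ℕ} (σ : Sx X n) (w : Fin (m + 1) → D n) (k : ℕ) (v : Fin (k + 1) → D m) :
    ra (ra σ m w) k v = ra σ k (aff w ∘ v) := by
  rw [ra, ra, ra, aff_aff, ContinuousMap.comp_assoc]

/-- The barycentre. -/
noncomputable def bc (n k : ℕ) (v : Fin (k + 1) → D n) : D n := aff v barycenter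

theorem aff_bc {m n : ℕ} (w : Fin (m + 1) → D n) (k : ℕ) (v : Fin (k + 1) → D m) :
    aff w (bc m k v) = bc n k (aff w ∘ v) := by
  rw [bc, bc, aff_aff, ContinuousMap.comp_apply]

variable (X) in
/-- The barycentric subdivision. -/
noncomputable def sds (k : ℕ) : Ch X k →ₗ[ℤ] Ch X k :=
  linearCombination ℤ fun τ => Rl (ra τ) k (sd (bc k) (k + 1) (single vertex 1))

/-- The formal homotopy between the identity and the subdivision. -/
noncomputable def tf (n k : ℕ) : L (D n) k →ₗ[ℤ] L (D n) (k + 1) :=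
  hm id (fun k => .id - sd (bc n) k) k

variable (X) in
/-- The homotopy between the identity and the subdivision. -/
noncomputable def ts (k : ℕ) : Ch X k →ₗ[ℤ] Ch X (k + 1) :=
  linearCombination ℤ fun τ => Rl (ra τ) (k + 1) (tf k (k + 1) (single vertex 1))

theorem sds_Rl {k n : ℕ} (σ : Sx X n) (x : L (D n) (k + 1)) :
    sds X k (Rl (ra σ) k x) = Rl (ra σ) k (sd (bc n) (k + 1) x) :=
  op_Rl ra (fun w => aff w) ra_ra (fun n => sd (bc n) (k + 1))
    (fun w x => mp_sd (aff_bc w) x) σ x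

theorem ts_Rl {k n : ℕ} (σ : Sx X n) (x : L (D n) (k + 1)) :
    ts X k (Rl (ra σ) k x) = Rl (ra σ) (k + 1) (tf n (k + 1) x) :=
  op_Rl ra (fun w => aff w) ra_ra (fun n => tf n (k + 1))
    (fun w x => mp_hm (u := id) (u' := id) (g := aff w) (g' := aff w) (fun _ => rfl) (fun n x => by
      simp only [LinearMap.sub_apply, LinearMap.id_apply, map_sub, mp_sd (aff_bc w)]) x) σ x

theorem bd_sds {k : ℕ} (z : Ch X (k + 1)) : bd X k (sds X (k + 1) z) = sds X k (bd X k z) := by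
  refine lin_ext (f := bd X k ∘ₗ sds X _) (g := sds X k ∘ₗ bd X k) (fun σ => ?_) z
  rw [LinearMap.comp_apply, LinearMap.comp_apply, ← Rl_id, sds_Rl, bd_Rl (ra_face σ),
    bd_Rl (ra_face σ), sds_Rl, dl_sd]

theorem dl_tf {n k : ℕ} (x : L (D n) (k + 1)) :
    dl _ (k + 1) (tf n (k + 1) x) = x - sd (bc n) (k + 1) x - tf n k (dl _ k x) :=
  dl_hm id (fun x => sub_self x) (fun n x => by
    simp only [LinearMap.sub_apply, LinearMap.id_apply, map_sub, dl_sd]) x

theorem bd_ts {k : ℕ} (z : Ch X (k + 1)) :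
    bd X (k + 1) (ts X (k + 1) z) = z - sds X (k + 1) z - ts X k (bd X k z) := by
  refine lin_ext (f := bd X _ ∘ₗ ts X _) (g := .id - sds X _ - ts X k ∘ₗ bd X k) (fun σ => ?_) z
  simp only [LinearMap.comp_apply, LinearMap.sub_apply, LinearMap.id_apply]
  rw [← Rl_id, ts_Rl, bd_Rl (ra_face σ), bd_Rl (ra_face σ), sds_Rl, ts_Rl, dl_tf, map_sub, map_sub]

/-- The chains whose simplices have an image with the property `Q`. -/
def Sm (Q : Set X → Prop) (n : ℕ) : Submodule ℤ (Ch X n) :=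
  supported ℤ ℤ {σ : Sx X n | Q (range σ)}

theorem single_Sm {Q : Set X → Prop} {n : ℕ} {σ : Sx X n} (h : Q (range σ)) :
    single σ 1 ∈ Sm Q n := single_mem_supported ℤ 1 h

theorem sup_map {α M : Type} [AddCommGroup M] {s : Set α} {f : (α →₀ ℤ) →ₗ[ℤ] M}
    {N : Submodule ℤ M} (h : ∀ a ∈ s, f (single a 1) ∈ N) {z : α →₀ ℤ}
    (hz : z ∈ supported ℤ ℤ s) : f z ∈ N := by
  rw [supported_eq_span_single] at hz
  refine (Submodule.span_le.2 ?_ : _ ≤ N.comap f) hz
  rintro _ ⟨a, ha, rfl⟩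
  exact h a ha

theorem Rl_Sm {P : Type} {Q : Set Y → Prop} {r : ∀ k, (Fin (k + 1) → P) → Sx Y k} {k : ℕ}
    (h : ∀ v, Q (range (r k v))) (x : L P (k + 1)) : Rl r k x ∈ Sm Q k :=
  sup_map (s := univ) (fun v _ => Rl_single r v ▸ single_Sm (h v)) (by simp)

/-- A property that passes to subsets. -/
def Dn (Q : Set X → Prop) : Prop := ∀ ⦃A B⦄, A ⊆ B → Q B → Q A

omit [TopologicalSpace X] in
theorem dn_sub (A : Set X) : Dn (· ⊆ A) := fun _ _ h1 h2 => h1.trans h2

theorem range_comp_sub {m n : ℕ} (σ : Sx X n) (g : C(D m, D n)) : range (σ.comp g) ⊆ range σ := by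
  rintro _ ⟨t, rfl⟩
  exact ⟨g t, rfl⟩

variable {Q : Set X → Prop}

theorem Dn.bd (h : Dn Q) {n : ℕ} {z : Ch X (n + 1)} (hz : z ∈ Sm Q (n + 1)) : bd X n z ∈ Sm Q n :=
  sup_map (fun σ hσ => by
    rw [bd_single]
    exact Submodule.sum_mem _ fun i _ => Submodule.smul_mem _ _
      (single_Sm (h (range_comp_sub σ _) hσ))) hz

theorem Dn.sds (h : Dn Q) {n : ℕ} {z : Ch X n} (hz : z ∈ Sm Q n) : sds X n z ∈ Sm Q n :=
  sup_map (fun σ hσ => by
    rw [← Rl_id, sds_Rl]
    exact Rl_Sm (fun v => h (range_comp_sub σ _) hσ) _) hz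

theorem Dn.ts (h : Dn Q) {n : ℕ} {z : Ch X n} (hz : z ∈ Sm Q n) : ts X n z ∈ Sm Q (n + 1) :=
  sup_map (fun σ hσ => by
    rw [← Rl_id, ts_Rl]
    exact Rl_Sm (fun v => h (range_comp_sub σ _) hσ) _) hz

theorem Sm_mono {Q' : Set X → Prop} (h : ∀ A, Q A → Q' A) {n : ℕ} : Sm Q n ≤ Sm Q' n :=
  supported_mono fun _ => h _

/-- The induced map on chains. -/
noncomputable def push (f : C(X, Y)) (n : ℕ) : Ch X n →ₗ[ℤ] Ch Y n :=
  lmapDomain ℤ ℤ fun σ => f.comp σ

theorem push_single (f : C(X, Y)) {n : ℕ} (σ : Sx X n) :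
    push f n (single σ 1) = single (f.comp σ) 1 := mapDomain_single

theorem bd_push (f : C(X, Y)) {n : ℕ} (z : Ch X (n + 1)) :
    bd Y n (push f (n + 1) z) = push f n (bd X n z) := by
  refine lin_ext (f := bd Y n ∘ₗ push f _) (g := push f n ∘ₗ bd X n) (fun σ => ?_) z
  simp only [LinearMap.comp_apply, push_single, bd_single, map_sum, map_smul]
  rfl

/-- The affine simplices in the prism over a singular simplex. -/
noncomputable def rp (H : C(X × ℝ, Y)) {n : ℕ} (σ : Sx X n) (k : ℕ)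
    (v : Fin (k + 1) → D n × Bool) : Sx Y k :=
  H.comp ((ra σ k fun i => (v i).1).prodMk ⟨fun t => ∑ i, t i • if (v i).2 then (1 : ℝ) else 0,
    continuous_finsetSum _ fun i _ =>
      ((continuous_apply i).comp continuous_subtype_val).smul continuous_const⟩)

theorem rp_face (H : C(X × ℝ, Y)) {n : ℕ} (σ : Sx X n) (k : ℕ) (v : Fin (k + 2) → D n × Bool)
    (i : Fin (k + 2)) :
    face i.succAbove (rp H σ (k + 1) v) = rp H σ k (v ∘ i.succAbove) :=
  ContinuousMap.ext fun t => congrArg H (Prod.ext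
    (ContinuousMap.congr_fun (ra_face σ k (fun i => (v i).1) i) t)
    (sum_map i.succAbove t fun i => if (v i).2 then (1 : ℝ) else 0))

/-- The formal prism. -/
noncomputable def pf (P : Type) (k : ℕ) : L P k →ₗ[ℤ] L (P × Bool) (k + 1) :=
  hm (·, false) (fun k => mp (·, true) k - mp (·, false) k) k

/-- The prism operator. -/
noncomputable def prism (H : C(X × ℝ, Y)) (k : ℕ) : Ch X k →ₗ[ℤ] Ch Y (k + 1) :=
  linearCombination ℤ fun τ => Rl (rp H τ) (k + 1) (pf (D k) (k + 1) (single vertex 1))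

theorem prism_Rl (H : C(X × ℝ, Y)) {k n : ℕ} (σ : Sx X n) (x : L (D n) (k + 1)) :
    prism H k (Rl (ra σ) k x) = Rl (rp H σ) (k + 1) (pf (D n) (k + 1) x) :=
  op_Rl (Q := fun n => D n × Bool) (rp H) (fun w => Prod.map (aff w) id)
    (fun σ w k v => by
      rw [rp, rp, ra_ra]
      rfl) (fun n => pf (D n) (k + 1))
    (fun w x => mp_hm (u := (·, false)) (u' := (·, false)) (g := aff w)
      (g' := Prod.map (aff w) id) (fun _ => rfl) (fun n x => by
      simp only [LinearMap.sub_apply, map_sub, mp_mp]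
      rfl) x) σ x

theorem dl_pf {P : Type} {k : ℕ} (x : L P (k + 1)) : dl _ (k + 1) (pf P (k + 1) x) =
    mp (·, true) _ x - mp (·, false) _ x - pf P k (dl _ k x) :=
  dl_hm _ (fun x => by
    refine lin_ext (g := 0) (fun v => ?_) x
    rw [LinearMap.sub_apply, mp_single, mp_single, Subsingleton.elim (_ ∘ v) ((·, false) ∘ v),
      sub_self, LinearMap.zero_apply]) (fun n x => by
    simp only [LinearMap.sub_apply, map_sub, mp_dl]) x

/-- A level of a homotopy. -/
def lev (H : C(X × ℝ, Y)) (s : ℝ) : C(X, Y) := H.comp ((ContinuousMap.id X).prodMk (.const X s))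

theorem Rl_lev (H : C(X × ℝ, Y)) {n : ℕ} (σ : Sx X n) (b : Bool) :
    Rl (rp H σ) n (mp (·, b) _ (single vertex 1)) =
      push (lev H (if b then 1 else 0)) n (single σ 1) := by
  rw [mp_single, Rl_single, push_single]
  congr 1
  refine ContinuousMap.ext fun t => congrArg H (Prod.ext ?_ ?_)
  · exact congrArg σ (ContinuousMap.congr_fun aff_id t)
  · change ∑ i, t i • (if b then (1 : ℝ) else 0) = if b then 1 else 0
    rw [← Finset.sum_smul, sum_eq_one, one_smul]

theorem bd_prism (H : C(X × ℝ, Y)) {k : ℕ} (z : Ch X (k + 1)) :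
    bd Y (k + 1) (prism H (k + 1) z) =
      push (lev H 1) _ z - push (lev H 0) _ z - prism H k (bd X k z) := by
  refine lin_ext (f := bd Y _ ∘ₗ prism H _)
    (g := push (lev H 1) _ - push (lev H 0) _ - prism H k ∘ₗ bd X k) (fun σ => ?_) z
  simp only [LinearMap.comp_apply, LinearMap.sub_apply]
  have h1 := Rl_lev H σ true
  have h0 := Rl_lev H σ false
  simp only [if_true, Bool.false_eq_true, if_false] at h1 h0
  rw [← h1, ← h0, ← Rl_id, prism_Rl, bd_Rl (rp_face H σ), bd_Rl (ra_face σ), prism_Rl, dl_pf,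
    map_sub, map_sub]

theorem bd_prism0 (H : C(X × ℝ, Y)) (z : Ch X 0) :
    bd Y 0 (prism H 0 z) = push (lev H 1) _ z - push (lev H 0) _ z := by
  refine lin_ext (f := bd Y _ ∘ₗ prism H _) (g := push (lev H 1) _ - push (lev H 0) _)
    (fun σ => ?_) z
  simp only [LinearMap.comp_apply, LinearMap.sub_apply]
  have h1 := Rl_lev H σ true
  have h0 := Rl_lev H σ false
  simp only [if_true, Bool.false_eq_true, if_false] at h1 h0
  rw [← h1, ← h0, ← Rl_id, prism_Rl, bd_Rl (rp_face H σ), dl_pf, map_sub, map_sub]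
  simp [pf, hm]

theorem prism_Sm (H : C(X × ℝ, Y)) {A : Set X} {B : Set Y}
    (h : ∀ x ∈ A, ∀ s ∈ Icc (0 : ℝ) 1, H (x, s) ∈ B) {k : ℕ} {z : Ch X k}
    (hz : z ∈ Sm (· ⊆ A) k) : prism H k z ∈ Sm (· ⊆ B) (k + 1) :=
  sup_map (fun σ hσ => by
    rw [← Rl_id, prism_Rl]
    refine Rl_Sm (fun v => ?_) _
    rintro _ ⟨t, rfl⟩
    refine h _ (hσ ⟨_, rfl⟩) _ ((convex_Icc (𝕜 := ℝ) 0 1).sum_mem (fun i _ => zero_le t i)
      (sum_eq_one t) fun i _ => ?_)
    split_ifs <;> simp) hz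

theorem push_Sm (f : C(X, Y)) {A : Set X} {B : Set Y} (h : ∀ x ∈ A, f x ∈ B) {k : ℕ}
    {z : Ch X k} (hz : z ∈ Sm (· ⊆ A) k) : push f k z ∈ Sm (· ⊆ B) k :=
  sup_map (fun σ hσ => by
    rw [push_single]
    refine single_Sm ?_
    rintro _ ⟨t, rfl⟩
    exact h _ (hσ ⟨_, rfl⟩)) hz

end Pool.Agent.Lib.MP_e039bb_gt
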