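import Pool.Agent.Lib.MP_e039bb_gt.Pd.Sing

/-! Small chains. -/

namespace Pool.Agent.Lib.MP_e039bb_gt

open Finsupp stdSimplex Set Filter

theorem dist_aff {k n : ℕ} {v : Fin (k + 1) → D n} {b : D n} {r : ℝ} (h : ∀ i, dist (v i) b ≤ r)
    (t : D k) : dist (aff v t) b ≤ r :=
  (convex_closedBall b.1 r).sum_mem (fun i _ => zero_le t i) (sum_eq_one t) fun i _ => h i

theorem dist_bc {k n : ℕ} {v : Fin (k + 1) → D n} {δ : ℝ} (h : ∀ i j, dist (v i) (v j) ≤ δ)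
    (j : Fin (k + 1)) : dist (v j) (bc n k v) ≤ k / (k + 1) * δ := by
  have h0 : (0 : ℝ) < k + 1 := by positivity
  have h1 : ∀ i, (barycenter : D k) i = ((k : ℝ) + 1)⁻¹ := fun i =>
    (stdSimplex.barycenter_apply i).trans (by simp)
  have h2 : (bc n k v).1 - (v j).1 = ∑ i, ((k : ℝ) + 1)⁻¹ • ((v i).1 - (v j).1) := by
    simp only [bc, aff_val, h1, smul_sub, Finset.sum_sub_distrib, Finset.sum_const,
      Finset.card_univ, Fintype.card_fin, ← Nat.cast_smul_eq_nsmul ℝ, smul_smul]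
    rw [Nat.cast_add_one, mul_inv_cancel₀ h0.ne', one_smul]
  rw [dist_comm, Subtype.dist_eq, dist_eq_norm, h2, Fin.sum_univ_succAbove _ j, sub_self,
    smul_zero, zero_add]
  refine (norm_sum_le _ _).trans ((Finset.sum_le_card_nsmul _ _ (((k : ℝ) + 1)⁻¹ * δ)
    fun i _ => ?_).trans (le_of_eq ?_))
  · rw [norm_smul, Real.norm_of_nonneg (by positivity), ← dist_eq_norm]
    exact mul_le_mul_of_nonneg_left (h _ _) (by positivity)
  · rw [Finset.card_univ, Fintype.card_fin, nsmul_eq_mul, div_eq_mul_inv, mul_assoc]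

theorem mesh {n k : ℕ} {δ : ℝ} (v : Fin (k + 1) → D n) (h : ∀ i j, dist (v i) (v j) ≤ δ) :
    sd (bc n) (k + 1) (single v 1) ∈ supported ℤ ℤ {w : Fin (k + 1) → D n |
      (∀ i, w i ∈ range (aff v)) ∧ ∀ i j, dist (w i) (w j) ≤ k / (k + 1) * δ} := by
  have hδ : 0 ≤ δ := dist_nonneg.trans (h 0 0)
  induction k with
  | zero =>
    rw [sd_single]
    refine sup_map (s := univ) (fun w _ => ?_) (by simp)
    rw [cn_single]
    exact single_mem_supported ℤ 1 ⟨fun i => by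
      rw [Fin.fin_one_eq_zero i]
      exact ⟨_, rfl⟩, fun i j => by simp [Fin.fin_one_eq_zero i, Fin.fin_one_eq_zero j]⟩
  | succ k ih =>
    have h1 : (k : ℝ) / (k + 1) * δ ≤ ((k + 1 : ℕ) : ℝ) / ((k + 1 : ℕ) + 1) * δ := by
      refine mul_le_mul_of_nonneg_right ?_ hδ
      rw [div_le_div_iff₀ (by positivity) (by positivity)]
      push_cast
      nlinarith
    rw [sd_single, dl_single, map_sum, map_sum]
    refine Submodule.sum_mem _ fun l _ => ?_
    rw [map_smul, map_smul]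
    refine Submodule.smul_mem _ _ (sup_map (fun w hw => ?_)
      (ih (v ∘ l.succAbove) fun i j => h _ _))
    have h2 : ∀ i, w i ∈ range (aff v) := fun i =>
      range_comp_sub (aff v) _ (show w i ∈ range (face l.succAbove (aff v)) from
        (face_aff l.succAbove v).symm ▸ hw.1 i)
    have h3 : ∀ i, dist (w i) (bc n (k + 1) v) ≤ ((k + 1 : ℕ) : ℝ) / ((k + 1 : ℕ) + 1) * δ :=
      fun i => by
        obtain ⟨t, ht⟩ := h2 i
        exact ht ▸ dist_aff (dist_bc h) t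
    rw [cn_single]
    refine single_mem_supported ℤ 1 ⟨fun i => Fin.cases ⟨_, rfl⟩ h2 i, fun i j => ?_⟩
    refine Fin.cases (Fin.cases ?_ (fun j => ?_) j) (fun i => Fin.cases ?_ (fun j => ?_) j) i
    · rw [dist_self]
      positivity
    · exact (dist_comm _ _).trans_le (h3 j)
    · exact h3 i
    · exact (hw.2 i j).trans h1

variable {X : Type} [TopologicalSpace X] {Q : Set X → Prop}

theorem mesh_pow {k : ℕ} (σ : Sx X k) (m : ℕ) : (sds X k ^ m) (single σ 1) ∈ supported ℤ ℤ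
    {τ | ∃ w, τ = ra σ k w ∧ ∀ i j, dist (w i) (w j) ≤ ((k : ℝ) / (k + 1)) ^ m} := by
  induction m with
  | zero =>
    refine single_mem_supported ℤ 1 ⟨vertex, by rw [ra, aff_id, ContinuousMap.comp_id],
      fun i j => ?_⟩
    rw [pow_zero, Subtype.dist_eq]
    exact (dist_pi_le_iff zero_le_one).2 fun l => Real.dist_le_of_mem_Icc_01
      ⟨zero_le _ l, le_one _ l⟩ ⟨zero_le _ l, le_one _ l⟩
  | succ m ih =>
    rw [pow_succ' (sds X k), Module.End.mul_apply]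
    refine sup_map ?_ ih
    rintro _ ⟨w, rfl, hw⟩
    rw [← Rl_single (ra σ), sds_Rl]
    refine sup_map (fun u hu => ?_) (mesh w hw)
    rw [Rl_single]
    exact single_mem_supported ℤ 1 ⟨u, rfl, pow_succ' (_ : ℝ) m ▸ hu.2⟩

theorem Dn.pow (h : Dn Q) {n : ℕ} {z : Ch X n} (hz : z ∈ Sm Q n) (m : ℕ) :
    (Pool.Agent.Lib.MP_e039bb_gt.sds X n ^ m) z ∈ Sm Q n := by
  induction m with
  | zero => exact hz
  | succ m ih =>
    rw [pow_succ', Module.End.mul_apply]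
    exact h.sds ih

/-- Contained in a member of a family. -/
def In (𝒲 : Set (Set X)) (A : Set X) : Prop := ∃ W ∈ 𝒲, A ⊆ W

omit [TopologicalSpace X] in
theorem dn_in (𝒲 : Set (Set X)) : Dn (In 𝒲) := fun _ _ h ⟨W, h1, h2⟩ => ⟨W, h1, h.trans h2⟩

theorem small {𝒲 : Set (Set X)} (ho : ∀ W ∈ 𝒲, IsOpen W) {k : ℕ} {z : Ch X k}
    (hz : z ∈ Sm (· ⊆ ⋃₀ 𝒲) k) : ∀ᶠ m in atTop, (sds X k ^ m) z ∈ Sm (In 𝒲) k := by
  rw [Sm, supported_eq_span_single] at hz
  induction hz using Submodule.span_induction with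
  | zero => simp
  | add x y _ _ hx hy => exact (hx.and hy).mono fun m h => map_add (sds X k ^ m) x y ▸ add_mem h.1 h.2
  | smul a x _ hx => exact hx.mono fun m h => map_smul (sds X k ^ m) a x ▸ Submodule.smul_mem _ a h
  | mem x hx =>
    obtain ⟨σ, hσ, rfl⟩ := hx
    obtain ⟨δ, δ0, hδ⟩ := lebesgue_number_lemma_of_metric (s := univ) (c := fun W : 𝒲 => σ ⁻¹' W)
      isCompact_univ (fun W => (ho W W.2).preimage σ.continuous) fun t _ => by
        obtain ⟨W, h1, h2⟩ := hσ ⟨t, rfl⟩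
        exact mem_iUnion.2 ⟨⟨W, h1⟩, h2⟩
    have h1 := (tendsto_pow_atTop_nhds_zero_of_lt_one (r := (k : ℝ) / (k + 1)) (by positivity)
      ((div_lt_one (by positivity)).2 (lt_add_one _))).eventually (gt_mem_nhds δ0)
    refine h1.mono fun m hm => supported_mono ?_ (mesh_pow σ m)
    rintro _ ⟨w, rfl, hw⟩
    obtain ⟨W, hW⟩ := hδ (w 0) trivial
    refine ⟨W, W.2, ?_⟩
    rintro _ ⟨t, rfl⟩
    exact hW ((dist_aff (fun i => hw i 0) t).trans_lt hm)

theorem bd_pow {k : ℕ} (z : Ch X (k + 1)) (m : ℕ) :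
    bd X k ((sds X (k + 1) ^ m) z) = (sds X k ^ m) (bd X k z) := by
  induction m with
  | zero => rfl
  | succ m ih => rw [pow_succ', pow_succ', Module.End.mul_apply, Module.End.mul_apply, bd_sds, ih]

variable (X) in
/-- The homotopy between the identity and the iterated subdivision. -/
noncomputable def tn (k m : ℕ) : Ch X k →ₗ[ℤ] Ch X (k + 1) :=
  ∑ i ∈ Finset.range m, ts X k ∘ₗ (sds X k ^ i)

theorem tn_succ {k : ℕ} (z : Ch X k) (m : ℕ) :
    tn X k (m + 1) z = tn X k m z + ts X k ((sds X k ^ m) z) := by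
  rw [tn, Finset.sum_range_succ]
  rfl

theorem bd_tn {k : ℕ} (z : Ch X (k + 1)) (m : ℕ) : bd X (k + 1) (tn X (k + 1) m z) =
    z - (sds X (k + 1) ^ m) z - tn X k m (bd X k z) := by
  induction m with
  | zero => simp [tn]
  | succ m ih =>
    rw [tn_succ, tn_succ, map_add, ih, bd_ts, bd_pow, pow_succ', Module.End.mul_apply]
    abel

theorem Dn.tn (h : Dn Q) {n : ℕ} {z : Ch X n} (hz : z ∈ Sm Q n) (m : ℕ) :
    tn X n m z ∈ Sm Q (n + 1) := by
  induction m with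
  | zero => simp [Pool.Agent.Lib.MP_e039bb_gt.tn]
  | succ m ih => exact tn_succ z m ▸ add_mem ih (h.ts (h.pow hz m))

/-- The chains in the complement of `K`. -/
abbrev Out (K : Set X) (n : ℕ) : Submodule ℤ (Ch X n) := Sm (· ⊆ Kᶜ) n

theorem Out_mono {K K' : Set X} (h : K ⊆ K') {n : ℕ} : Out K' n ≤ Out K n :=
  Sm_mono fun _ h1 => h1.trans (compl_subset_compl.2 h)

theorem Out_union {A B : Set X} {n : ℕ} {z : Ch X n} (h1 : z ∈ Out A n) (h2 : z ∈ Out B n) :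
    z ∈ Out (A ∪ B) n := fun _ hσ => (compl_union A B).symm ▸ subset_inter (h1 hσ) (h2 hσ)

theorem In_pair {U V : Set X} {n : ℕ} {z : Ch X n} (h : z ∈ Sm (In {U, V}) n) :
    ∃ a ∈ Sm (· ⊆ U) n, ∃ b ∈ Sm (· ⊆ V) n, z = a + b := by
  have h1 : (LinearMap.id : Ch X n →ₗ[ℤ] Ch X n) z ∈ Sm (· ⊆ U) n ⊔ Sm (· ⊆ V) n :=
    sup_map (fun σ hσ => by
      obtain ⟨W, h1, h2⟩ : In {U, V} (range σ) := hσ
      rcases h1 with rfl | rfl
      · exact Submodule.mem_sup_left (single_Sm h2)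
      · exact Submodule.mem_sup_right (single_Sm h2)) h
  obtain ⟨a, ha, b, hb, e⟩ := Submodule.mem_sup.1 h1
  exact ⟨a, ha, b, hb, e.symm⟩

/-- A chain in the union of two open sets whose boundary splits. -/
theorem split {U V : Set X} (hU : IsOpen U) (hV : IsOpen V) {n : ℕ} {s : Ch X (n + 1)}
    (hs : s ∈ Sm (· ⊆ U ∪ V) (n + 1)) {a b : Ch X n} (ha : a ∈ Sm (· ⊆ U) n)
    (hb : b ∈ Sm (· ⊆ V) n) (h : bd X n s = a + b) :
    ∃ a' ∈ Sm (· ⊆ U) (n + 1), ∃ b' ∈ Sm (· ⊆ V) (n + 1), ∃ t ∈ Sm (· ⊆ U ∪ V) (n + 2),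
      s = a' + b' + bd X (n + 1) t := by
  obtain ⟨m, hm⟩ := (small (𝒲 := {U, V}) (by rintro _ (rfl | rfl) <;> assumption)
    (by rwa [sUnion_pair])).exists
  obtain ⟨a', ha', b', hb', e⟩ := In_pair hm
  refine ⟨a' + tn X n m a, add_mem ha' ((dn_sub U).tn ha m), b' + tn X n m b,
    add_mem hb' ((dn_sub V).tn hb m), tn X _ m s, (dn_sub _).tn hs m, ?_⟩
  rw [bd_tn, e, h, map_add]
  abel

end Pool.Agent.Lib.MP_e039bb_gt
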